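import Pool.Agent.H9.KA.Defs
import Pool.Agent.H41.STK.Q22

/-!
# Capacities of rounded reals and a Shannon inequality
-/

set_option autoImplicit false

namespace Pool.Agent.H56.K5

open Finset Real
open Pool.Agent.H49.Ent Pool.Agent.H32.Dense Pool.STK Pool.KA

variable {Ω : Type} [Fintype Ω] {p : Ω → ℝ}

lemma floor_close {q : ℕ} {x y : ℝ} (h : ⌊(2 : ℝ) ^ q * x⌋ = ⌊(2 : ℝ) ^ q * y⌋) :
    |x - y| ≤ ((2 : ℝ) ^ q)⁻¹ := by
  have h2 : (0 : ℝ) < 2 ^ q := by positivity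
  have h3 := Int.abs_sub_lt_one_of_floor_eq_floor h
  rw [← mul_sub, abs_mul, abs_of_pos h2] at h3
  rw [← one_div, le_div_iff₀ h2, mul_comm]
  exact h3.le

lemma floor_det {q J : ℕ} (hq : q ≤ J) {x y : ℝ} (h : ⌊(2 : ℝ) ^ J * x⌋ = ⌊(2 : ℝ) ^ J * y⌋) :
    ⌊(2 : ℝ) ^ q * x⌋ = ⌊(2 : ℝ) ^ q * y⌋ := by
  have key : ∀ z : ℝ, ⌊(2 : ℝ) ^ q * z⌋ = ⌊(2 : ℝ) ^ J * z⌋ / ((2 ^ (J - q) : ℕ) : ℤ) := by
    intro z
    rw [← Int.floor_div_natCast]
    congr 1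
    have e : (2 : ℝ) ^ J = 2 ^ q * 2 ^ (J - q) := by rw [← pow_add, Nat.add_sub_cancel' hq]
    rw [e]
    push_cast
    field_simp
  rw [key x, key y, h]

/-- A real known up to `3 * 2 ^ (-q)` has at most `9 * 2 ^ (j - q)` values at level `j`. -/
lemma cap {T : Type} (hp : IsLaw p) {j q : ℕ} (hq : q ≤ j) (x : Ω → ℝ) (W : Ω → T)
    (h : ∀ ω ω', W ω = W ω' → |x ω - x ω'| ≤ 3 * ((2 : ℝ) ^ q)⁻¹) :
    CH p (fun ω => ⌊(2 : ℝ) ^ j * x ω⌋) W ≤ ((j : ℝ) - q) * Real.log 2 + Real.log 9 := by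
  have h1 := CH_le_int hp.nonneg hp.sum_one (fun ω => ⌊(2 : ℝ) ^ j * x ω⌋) W
    (fun _ => 3 * (2 : ℝ) ^ (j - q) + 1) (fun ω ω' _ _ e => by
      have h2 := h ω ω' e
      have e1 : (2 : ℝ) ^ j = 2 ^ q * 2 ^ (j - q) := by rw [← pow_add, Nat.add_sub_cancel' hq]
      have h3 : |(2 : ℝ) ^ j * x ω - 2 ^ j * x ω'| ≤ 3 * 2 ^ (j - q) := by
        rw [← mul_sub, abs_mul, abs_of_pos (by positivity)]
        calc (2 : ℝ) ^ j * |x ω - x ω'| ≤ 2 ^ j * (3 * ((2 : ℝ) ^ q)⁻¹) := by gcongr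
          _ = 3 * 2 ^ (j - q) := by rw [e1]; field_simp
      have a1 := Int.floor_le ((2 : ℝ) ^ j * x ω)
      have a2 := Int.lt_floor_add_one ((2 : ℝ) ^ j * x ω)
      have a3 := Int.floor_le ((2 : ℝ) ^ j * x ω')
      have a4 := Int.lt_floor_add_one ((2 : ℝ) ^ j * x ω')
      rw [abs_le] at h3 ⊢
      push_cast
      constructor <;> linarith [h3.1, h3.2])
  refine h1.trans ?_
  rw [Ex_const hp.sum_one]
  have e2 : ((j : ℝ) - q) * Real.log 2 + Real.log 9 = Real.log (2 ^ (j - q) * 9) := by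
    rw [Real.log_mul (by positivity) (by positivity), Real.log_pow, Nat.cast_sub hq]
  rw [e2]
  refine Real.log_le_log (by positivity) ?_
  have h5 : (1 : ℝ) ≤ 2 ^ (j - q) := one_le_pow₀ (by norm_num)
  linarith

/-- Shannon inequality. -/
lemma shannon {S A B C : Type} (hp : IsLaw p) (U : Ω → S) (a : Ω → A) (b : Ω → B) (c : Ω → C) :
    CH p U c ≤ CH p a c + CH p b c - CH p (fun ω => (a ω, b ω)) c +
      CH p U (fun ω => (a ω, c ω)) + CH p U (fun ω => (b ω, c ω)) := by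
  have h0 := hp.nonneg
  have e1 := CH_chain h0 U a c
  have e2 := CH_chain h0 a U c
  have e3 : CH p (fun ω => (U ω, a ω)) c = CH p (fun ω => (a ω, U ω)) c := by
    refine CH_congr h0 ?_ ?_ (fun _ _ _ _ h => h) (fun _ _ _ _ h => h) <;>
    · intro ω ω' _ _ h
      simp only [Prod.mk.injEq] at h ⊢
      tauto
  have e4 := CH_chain h0 a b c
  have e5 : CH p a (fun ω => (U ω, (b ω, c ω))) ≤ CH p a (fun ω => (U ω, c ω)) :=
    CH_mono_cond h0 (fun ω ω' _ _ h => by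
      simp only [Prod.mk.injEq] at h ⊢
      tauto)
  have e6 := CH_le_add h0 a U (fun ω => (b ω, c ω))
  linarith

end Pool.Agent.H56.K5
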