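import Pool.Agent.H56.K5.Stat

/-!
# A gap for random lines

Given `KP m`, the entropy of the direction of a random line in dimension `m + 1` exceeds the mean
entropy of its positions by at most `(1 - c) J log 2`, for an absolute `c > 0`.
-/

set_option autoImplicit false

namespace Pool.Agent.H56.K5

open Finset Real MeasureTheory
open Pool.Agent.H49.Ent Pool.Agent.H32.Dense Pool.STK Pool.KA

variable {Ω ζ : Type} [Fintype Ω] {p : Ω → ℝ} {n : ℕ}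

lemma near_time (hp : IsLaw p) (u d : Ω → Fin n → ℝ) (Z : Ω → ζ) (hd : ∀ ω i, |d ω i| ≤ 1)
    (J : ℕ) {t t' : ℝ} (h : |t' - t| ≤ ((2 : ℝ) ^ J)⁻¹) :
    CH p (Xp u d t' J) Z ≤ CH p (Xp u d t J) Z + n * Real.log 9 := by
  have e1 := CH_le_add hp.nonneg (Xp u d t' J) (Xp u d t J) Z
  have e2 := capv hp (le_refl J) (pt u d t') (fun ω => (Xp u d t J ω, Z ω)) fun ω ω' i hh => by
    have h1 := floor_close (congrFun (Prod.ext_iff.mp hh).1 i)
    have h2 : pt u d t' ω i - pt u d t' ω' i =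
        (pt u d t ω i - pt u d t ω' i) + (t' - t) * (d ω i - d ω' i) := by
      unfold pt
      ring
    have h3 : |(t' - t) * (d ω i - d ω' i)| ≤ ((2 : ℝ) ^ J)⁻¹ * 2 := by
      rw [abs_mul]
      have a1 := hd ω i
      have a2 := hd ω' i
      have a3 : |d ω i - d ω' i| ≤ 2 := by
        rw [abs_le] at a1 a2 ⊢
        constructor <;> linarith [a1.1, a1.2, a2.1, a2.2]
      gcongr
    rw [h2]
    have h4 := abs_add_le (pt u d t ω i - pt u d t ω' i) ((t' - t) * (d ω i - d ω' i))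
    linarith
  rw [sub_self, zero_mul, zero_add] at e2
  exact e1.trans (add_le_add le_rfl e2)

lemma int_win (hp : IsLaw p) (u d : Ω → Fin n → ℝ) (Z : Ω → ζ) (J w : ℕ) (hw : w < 2 ^ J) :
    IntervalIntegrable (fun s : ℝ => CH p (Xp u d ((w : ℝ) / 2 ^ J + s * (2 ^ J)⁻¹) J) Z)
      volume 0 1 := by
  have h2 : (0 : ℝ) < 2 ^ J := by positivity
  have h1 := (win_thm n Ω ζ p u d Z hp J ((w : ℝ) / 2 ^ J) (by positivity) (by
    rw [div_le_one h2]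
    exact_mod_cast hw.le)).1
  have h3 := (int_all n Ω ζ p (pt u d ((w : ℝ) / 2 ^ J)) (fun ω i => (2 ^ J)⁻¹ * d ω i) hp).1
    Z J 0 1
  refine h3.congr fun s _ => ?_
  simp only [h1 s J]

lemma xav_eq (hp : IsLaw p) (u d : Ω → Fin n → ℝ) (Z : Ω → ζ) (J : ℕ) :
    Xav p u d Z J = ∑ w ∈ Finset.range (2 ^ J), ((2 : ℝ) ^ J)⁻¹ *
      ∫ s in (0 : ℝ)..1, CH p (Xp u d ((w : ℝ) / 2 ^ J + s * (2 ^ J)⁻¹) J) Z :=
  w5_thm (fun t => CH p (Xp u d t J) Z) J ((int_all n Ω ζ p u d hp).1 Z J 0 1)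

lemma s_close {J w : ℕ} {s : ℝ} (hs : s ∈ Set.Icc (0 : ℝ) 1) :
    |(w : ℝ) / 2 ^ J + s * (2 ^ J)⁻¹ - (w : ℝ) / 2 ^ J| ≤ ((2 : ℝ) ^ J)⁻¹ := by
  have h2 : (0 : ℝ) ≤ ((2 : ℝ) ^ J)⁻¹ := by positivity
  have e : (w : ℝ) / 2 ^ J + s * (2 ^ J)⁻¹ - (w : ℝ) / 2 ^ J = s * (2 ^ J)⁻¹ := by ring
  rw [e, abs_mul, abs_of_nonneg hs.1, abs_of_nonneg h2]
  have := mul_le_mul_of_nonneg_right hs.2 h2
  linarith

lemma xav_le (hp : IsLaw p) (u d : Ω → Fin n → ℝ) (Z : Ω → ζ) (hd : ∀ ω i, |d ω i| ≤ 1)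
    (J : ℕ) : Xav p u d Z J ≤
      ((2 : ℝ) ^ J)⁻¹ * ∑ w ∈ Finset.range (2 ^ J), CH p (Xp u d ((w : ℝ) / 2 ^ J) J) Z +
      n * Real.log 9 := by
  have h2 : (0 : ℝ) < 2 ^ J := by positivity
  rw [xav_eq hp]
  have h1 : ∀ w ∈ Finset.range (2 ^ J), ((2 : ℝ) ^ J)⁻¹ *
      ∫ s in (0 : ℝ)..1, CH p (Xp u d ((w : ℝ) / 2 ^ J + s * (2 ^ J)⁻¹) J) Z ≤
      ((2 : ℝ) ^ J)⁻¹ * (CH p (Xp u d ((w : ℝ) / 2 ^ J) J) Z + n * Real.log 9) := by
    intro w hw
    have h3 := intervalIntegral.integral_mono_on (zero_le_one)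
      (int_win hp u d Z J w (Finset.mem_range.mp hw))
      (intervalIntegrable_const (c := CH p (Xp u d ((w : ℝ) / 2 ^ J) J) Z + n * Real.log 9))
      (fun s hs => near_time hp u d Z hd J (s_close hs))
    rw [intervalIntegral.integral_const, sub_zero, one_smul] at h3
    gcongr
  refine (Finset.sum_le_sum h1).trans (le_of_eq ?_)
  rw [← Finset.mul_sum, Finset.sum_add_distrib, Finset.sum_const, Finset.card_range, nsmul_eq_mul,
    mul_add]
  congr 1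
  push_cast
  field_simp

lemma le_xav (hp : IsLaw p) (u d : Ω → Fin n → ℝ) (Z : Ω → ζ) (hd : ∀ ω i, |d ω i| ≤ 1)
    (J : ℕ) : ((2 : ℝ) ^ J)⁻¹ *
      ∑ w ∈ Finset.range (2 ^ J), CH p (Xp u d ((w : ℝ) / 2 ^ J) J) Z - n * Real.log 9 ≤
      Xav p u d Z J := by
  have h2 : (0 : ℝ) < 2 ^ J := by positivity
  rw [xav_eq hp]
  have h1 : ∀ w ∈ Finset.range (2 ^ J),
      ((2 : ℝ) ^ J)⁻¹ * (CH p (Xp u d ((w : ℝ) / 2 ^ J) J) Z - n * Real.log 9) ≤
      ((2 : ℝ) ^ J)⁻¹ *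
      ∫ s in (0 : ℝ)..1, CH p (Xp u d ((w : ℝ) / 2 ^ J + s * (2 ^ J)⁻¹) J) Z := by
    intro w hw
    have h3 := intervalIntegral.integral_mono_on (zero_le_one)
      (intervalIntegrable_const (c := CH p (Xp u d ((w : ℝ) / 2 ^ J) J) Z - n * Real.log 9))
      (int_win hp u d Z J w (Finset.mem_range.mp hw))
      (fun s hs => by
        have h4 := near_time hp u d Z hd J (t := (w : ℝ) / 2 ^ J + s * (2 ^ J)⁻¹)
          (t' := (w : ℝ) / 2 ^ J) (by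
            rw [abs_sub_comm]
            exact s_close hs)
        linarith)
    rw [intervalIntegral.integral_const, sub_zero, one_smul] at h3
    gcongr
  refine le_trans (le_of_eq ?_) (Finset.sum_le_sum h1)
  rw [← Finset.mul_sum, Finset.sum_sub_distrib, Finset.sum_const, Finset.card_range, nsmul_eq_mul,
    mul_sub]
  congr 1
  push_cast
  field_simp

/-- **The gap.** -/
theorem gap {m : ℕ} (hK : KP m) : ∃ c > 0, c ≤ 1 ∧ ∃ J₀ : ℕ, ∀ J ≥ J₀,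
    ∀ (Ω ζ : Type) [Fintype Ω] (p : Ω → ℝ) (u d : Ω → Fin (m + 1) → ℝ) (Z : Ω → ζ), IsLaw p →
      (∀ ω i, |d ω i| ≤ 1) →
      CH p (Fl d J) Z ≤ Xav p u d Z J + (1 - c) * (J * Real.log 2) := by
  have hl2 : 0 < Real.log 2 := Real.log_pos (by norm_num)
  have hl9 : 0 < Real.log 9 := Real.log_pos (by norm_num)
  have hm : (0 : ℝ) ≤ m := Nat.cast_nonneg m
  obtain ⟨a, ha⟩ : ∃ a : ℝ, a = 1 + 1 / (8 * ((m : ℝ) + 1)) := ⟨_, rfl⟩
  have ha1 : 1 < a := by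
    rw [ha]
    have : 0 < 1 / (8 * ((m : ℝ) + 1)) := by positivity
    linarith
  obtain ⟨ε₀, hε₀, J₁, hE⟩ := e_all (m + 1) a (Real.log 2 / 8) ha1 (by positivity)
  obtain ⟨c₀, hc₀, θ, hθ, J₂, hS⟩ := sticky_of_large hK hε₀
  obtain ⟨J₃, hJ₃⟩ := exists_nat_ge (((m : ℝ) + 1) * Real.log 9 / (c₀ / 2 * Real.log 2))
  obtain ⟨J₄, hJ₄⟩ := exists_nat_ge (Real.log 9 / Real.log 2)
  refine ⟨min (c₀ / 2) (1 / 4), by positivity, (min_le_right _ _).trans (by norm_num),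
    max (max J₁ J₂) (max J₃ (J₄ + 1)), ?_⟩
  intro J hJ Ω ζ _ p u d Z hp hd
  have g1 : J₁ ≤ J := le_trans ((le_max_left _ _).trans (le_max_left _ _)) hJ
  have g2 : J₂ ≤ J := le_trans ((le_max_right _ _).trans (le_max_left _ _)) hJ
  have g3 : (J₃ : ℝ) ≤ J := by
    exact_mod_cast le_trans ((le_max_left _ _).trans (le_max_right _ _)) hJ
  have g4 : (J₄ : ℝ) + 1 ≤ J := by
    exact_mod_cast le_trans ((le_max_right _ _).trans (le_max_right _ _)) hJ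
  have k3 : ((m : ℝ) + 1) * Real.log 9 ≤ c₀ / 2 * (J * Real.log 2) := by
    have := hJ₃.trans g3
    rw [div_le_iff₀ (by positivity)] at this
    linarith
  have k4 : Real.log 9 < J * Real.log 2 := by
    have h1 : Real.log 9 / Real.log 2 < J := by linarith
    rwa [div_lt_iff₀ hl2] at h1
  obtain ⟨L, hL⟩ : ∃ L : ℝ, L = J * Real.log 2 := ⟨_, rfl⟩
  have hL0 : 0 < L := by rw [hL]; linarith
  rw [← hL] at k3 k4 ⊢
  by_contra hcon
  push Not at hcon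
  obtain ⟨c, hc⟩ : ∃ c : ℝ, c = min (c₀ / 2) (1 / 4) := ⟨_, rfl⟩
  rw [← hc] at hcon
  have hc1 : c ≤ c₀ / 2 := by rw [hc]; exact min_le_left _ _
  have hc2 : c ≤ 1 / 4 := by rw [hc]; exact min_le_right _ _
  have b1 := le_xav hp u d Z hd J
  have b2 := stat_X J hp u d Z hd
  have b3 := stat_D J hp u d Z hd
  have b4 : (stat J hp u d Z hd).V J = CH p (Fl d J) Z -
      ((2 : ℝ) ^ J)⁻¹ * ∑ w ∈ Finset.range (2 ^ J), CH p (Xp u d ((w : ℝ) / 2 ^ J) J) Z := by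
    unfold Fam.V
    rw [sub_self, zero_mul, mul_zero, sub_zero, b2, b3]
  push_cast at b1
  have b5 : (1 - c₀) * (J * Real.log 2) ≤ (stat J hp u d Z hd).V J := by
    rw [← hL, b4]
    have h1 : c * L ≤ c₀ / 2 * L := mul_le_mul_of_nonneg_right hc1 hL0.le
    linarith
  have b6 := hS J g2 (stat J hp u d Z hd) (stat_tm J hp u d Z hd (by positivity)) b5
  have b7 : Sticky p u d Z ε₀ J := by
    intro q hq
    have h1 := b6 q hq
    have h2 := CH_unl_fst (p := p) (N := 2 ^ J) (by positivity) (Fl u q) (fun ω => (Fl d q ω, Z ω))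
    have h3 : CH (stat J hp u d Z hd).p (Fl (stat J hp u d Z hd).u q)
        (fun ω => (Fl (stat J hp u d Z hd).d q ω, (stat J hp u d Z hd).Z ω)) =
        CH p (Fl u q) (fun ω => (Fl d q ω, Z ω)) := h2
    rwa [h3] at h1
  have b8 := hE J g1 Ω ζ p u d Z hp hd b7
  have b9 := capv hp (Nat.zero_le J) d Z fun ω ω' i _ => by
    have a1 := hd ω i
    have a2 := hd ω' i
    rw [abs_le] at a1 a2 ⊢
    norm_num
    constructor <;> linarith [a1.1, a1.2, a2.1, a2.2]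
  push_cast at b9
  rw [sub_zero, ← hL] at b9
  obtain ⟨h, hh⟩ : ∃ h : ℝ, h = CH p (Fl d J) Z := ⟨_, rfl⟩
  obtain ⟨x, hx⟩ : ∃ x : ℝ, x = Xav p u d Z J := ⟨_, rfl⟩
  rw [← hh, ← hx] at hcon b8
  rw [← hh] at b9
  have c1 : Real.log 2 / 8 * J = L / 8 := by rw [hL]; ring
  rw [c1] at b8
  -- `x < h - (1 - c) L`, `h ≤ a x + L / 8`, `h ≤ (m + 1) (L + log 9)`
  have c2 : x < h - 3 / 4 * L := by
    have : c * L ≤ 1 / 4 * L := mul_le_mul_of_nonneg_right hc2 hL0.le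
    linarith
  have c3 : a * x ≤ a * (h - 3 / 4 * L) := mul_le_mul_of_nonneg_left c2.le (by linarith)
  have c4 : (a - 1) * h ≤ (L + Real.log 9) / 8 := by
    have : a - 1 = 1 / (8 * ((m : ℝ) + 1)) := by rw [ha]; ring
    rw [this]
    have h5 : 1 / (8 * ((m : ℝ) + 1)) * h ≤
        1 / (8 * ((m : ℝ) + 1)) * (((m : ℝ) + 1) * (L + Real.log 9)) :=
      mul_le_mul_of_nonneg_left b9 (by positivity)
    refine h5.trans (le_of_eq ?_)
    field_simp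
  have c5 : 3 / 4 * L ≤ a * (3 / 4 * L) := by
    have : (1 : ℝ) * (3 / 4 * L) ≤ a * (3 / 4 * L) :=
      mul_le_mul_of_nonneg_right ha1.le (by positivity)
    linarith
  linarith

end Pool.Agent.H56.K5
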