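import Pool.Agent.H56.K5.Tube
import Pool.Agent.H55.Dense.HDim

/-!
# Minkowski dimension of Kakeya sets from the union of tubes
-/

set_option autoImplicit false

namespace Pool.Agent.H56.K5

open MeasureTheory Metric
open scoped RealInnerProductSpace
open Pool.Agent.H53.Kak (E tube)
open Pool.Agent.H55.HDim (edir norm_edir edir_sep select om om_pos volume_closedBall_eq)

/-- The tube of radius `δ` about a unit segment of `K` is in the `δ`-neighbourhood of `K`. -/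
lemma tube_subset {d : ℕ} {K : Set (E d)} {x e : E d} {δ : ℝ}
    (h : ∀ t : ℝ, 0 ≤ t → t ≤ 1 → x + t • e ∈ K) :
    tube δ (x + (1 / 2 : ℝ) • e) e ⊆ cthickening δ K := by
  intro y hy
  obtain ⟨h1, h2⟩ := hy
  rw [abs_le] at h1
  obtain ⟨s, hs⟩ : ∃ s : ℝ, s = ⟪y - (x + (1 / 2 : ℝ) • e), e⟫ := ⟨_, rfl⟩
  rw [← hs] at h1 h2
  have h3 := h (1 / 2 + s) (by linarith [h1.1]) (by linarith [h1.2])
  refine mem_cthickening_of_dist_le y _ δ K h3 ?_
  rw [dist_eq_norm]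
  refine le_trans (le_of_eq ?_) h2
  congr 1
  rw [add_smul]
  abel

/-- Volumes of neighbourhoods of Kakeya sets, from the tube inequality. -/
theorem thick {d : ℕ} {c C : ℝ} (hC : 0 < C)
    (hT : ∀ δ : ℝ, 0 < δ → δ < 1 →
      ∀ (N : ℕ) (a e : Fin N → E d), (∀ i, ‖e i‖ = 1) →
      (∀ i i', i ≠ i' → δ ≤ ‖e i - e i'‖) →
      ENNReal.ofReal (C⁻¹ * (δ ^ (1 - c) * (N * δ ^ d))) ≤ volume (⋃ i, tube δ (a i) (e i))) :
    ∃ C' : ℝ, 0 < C' ∧ ∀ K : Set (E d),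
      (∀ e : E d, ‖e‖ = 1 → ∃ x : E d, ∀ t : ℝ, 0 ≤ t → t ≤ 1 → x + t • e ∈ K) →
      ∀ δ : ℝ, 0 < δ → δ < 1 →
      ENNReal.ofReal (C'⁻¹ * δ ^ (1 - c)) ≤ volume (cthickening δ K) := by
  obtain ⟨A, hA⟩ : ∃ A : ℝ, A = 2 * ((d : ℝ) + 1) ^ 2 := ⟨_, rfl⟩
  have hA0 : 0 < A := by rw [hA]; positivity
  refine ⟨C * (2 ^ d * A ^ d), by positivity, ?_⟩
  intro K hK δ hδ hδ1
  obtain ⟨Z, w, hw1, hw2, hw3⟩ := select (d := d) (Set.pi Set.univ fun _ => Set.Icc (0 : ℝ) 1)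
    (fun w hw i => hw i (Set.mem_univ i)) (r := A * δ) (α := 1) (by positivity) (by
      rw [volume_pi_pi]
      simp only [Real.volume_Icc, Finset.prod_const]
      norm_num)
  choose! p hp using hK
  obtain ⟨en⟩ : Nonempty (Fin Z.card ≃ Z) := ⟨Z.equivFin.symm⟩
  have h1 := hT δ hδ hδ1 Z.card
    (fun i => p (edir (w (en i))) + (1 / 2 : ℝ) • edir (w (en i))) (fun i => edir (w (en i)))
    (fun i => norm_edir _) (fun i i' hii => by
      have hne : ((en i : Z) : Fin d → ℤ) ≠ (en i' : Z) := fun h =>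
        hii (en.injective (Subtype.ext h))
      obtain ⟨l, hl⟩ := hw2 _ (en i).2 _ (en i').2 hne
      have h2 := edir_sep (w (en i)) (w (en i')) (fun i => hw1 _ (en _).2 i (Set.mem_univ i))
        (fun i => hw1 _ (en _).2 i (Set.mem_univ i)) l
      rw [← hA] at h2
      exact le_of_mul_le_mul_left (hl.trans h2) hA0)
  refine le_trans (ENNReal.ofReal_le_ofReal ?_) (h1.trans (measure_mono (Set.iUnion_subset fun i =>
    tube_subset (hp _ (norm_edir _)))))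
  have h3 : 1 ≤ 2 ^ d * A ^ d * (Z.card * δ ^ d) := by
    refine hw3.trans (le_of_eq ?_)
    rw [mul_pow]
    ring
  have hδc : 0 < δ ^ (1 - c) := by positivity
  rw [mul_inv]
  calc C⁻¹ * (2 ^ d * A ^ d)⁻¹ * δ ^ (1 - c) =
      C⁻¹ * δ ^ (1 - c) * ((2 ^ d * A ^ d)⁻¹ * 1) := by ring
    _ ≤ C⁻¹ * δ ^ (1 - c) * ((2 ^ d * A ^ d)⁻¹ * (2 ^ d * A ^ d * (Z.card * δ ^ d))) := by
        gcongr
    _ = C⁻¹ * (δ ^ (1 - c) * (Z.card * δ ^ d)) := by
        field_simp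

/-- Covering numbers of Kakeya sets, from the volumes of neighbourhoods. -/
theorem cover {d : ℕ} {c C : ℝ} (hC : 0 < C) {K : Set (E d)}
    (hV : ∀ δ : ℝ, 0 < δ → δ < 1 →
      ENNReal.ofReal (C⁻¹ * δ ^ (1 - c)) ≤ volume (cthickening δ K)) :
    ∀ δ : ℝ, 0 < δ → δ < 1 → ∀ F : Finset (E d), K ⊆ ⋃ x ∈ F, closedBall x δ →
      (C * (2 ^ (d + 1) * om d))⁻¹ * δ ^ (-((d : ℝ) + c)) ≤ F.card := by
  intro δ hδ hδ1 F hF
  have hom := om_pos d
  have h1 : cthickening δ K ⊆ ⋃ x ∈ F, closedBall x (2 * δ) := by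
    have h2 : cthickening δ K ⊆ cthickening δ (⋃ x ∈ F, closedBall x δ) :=
      cthickening_subset_of_subset δ hF
    have hcl : IsCompact (⋃ x ∈ F, closedBall x δ) :=
      F.isCompact_biUnion fun x _ => isCompact_closedBall x δ
    refine h2.trans ?_
    rw [hcl.cthickening_eq_biUnion_closedBall hδ.le]
    refine Set.iUnion₂_subset fun y hy => ?_
    obtain ⟨x, hx, hyx⟩ := Set.mem_iUnion₂.mp hy
    intro z hz
    refine Set.mem_iUnion₂.mpr ⟨x, hx, ?_⟩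
    rw [mem_closedBall] at hz hyx ⊢
    have := dist_triangle z y x
    linarith
  have h3 := (hV δ hδ hδ1).trans ((measure_mono h1).trans (measure_biUnion_finset_le F _))
  have h4 : ∀ x ∈ F, volume (closedBall x (2 * δ)) =
      ENNReal.ofReal ((2 * δ) ^ (d + 1) * om d) := fun x _ =>
    volume_closedBall_eq x (by positivity)
  rw [Finset.sum_congr rfl h4, Finset.sum_const, nsmul_eq_mul, ← ENNReal.ofReal_natCast,
    ← ENNReal.ofReal_mul (by positivity)] at h3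
  have h5 := (ENNReal.ofReal_le_ofReal_iff (by positivity)).mp h3
  have e1 : δ ^ (-((d : ℝ) + c)) = δ ^ (1 - c) * (δ ^ (d + 1))⁻¹ := by
    rw [← Real.rpow_natCast δ (d + 1), ← Real.rpow_neg hδ.le, ← Real.rpow_add hδ]
    congr 1
    push_cast
    ring
  rw [e1, mul_inv]
  have h6 : C⁻¹ * δ ^ (1 - c) * (δ ^ (d + 1))⁻¹ ≤ F.card * (2 ^ (d + 1) * om d) := by
    rw [← div_eq_mul_inv, div_le_iff₀ (by positivity)]
    refine h5.trans (le_of_eq ?_)
    rw [mul_pow]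
    ring
  have h7 : (0 : ℝ) < 2 ^ (d + 1) * om d := by positivity
  calc C⁻¹ * (2 ^ (d + 1) * om d)⁻¹ * (δ ^ (1 - c) * (δ ^ (d + 1))⁻¹) =
      (2 ^ (d + 1) * om d)⁻¹ * (C⁻¹ * δ ^ (1 - c) * (δ ^ (d + 1))⁻¹) := by ring
    _ ≤ (2 ^ (d + 1) * om d)⁻¹ * (F.card * (2 ^ (d + 1) * om d)) := by gcongr
    _ = F.card := by field_simp

end Pool.Agent.H56.K5
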