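import Pool.Agent.H56.K5.Cap

/-!
# Near-full families are sticky

Let `d` have nearly full entropy, and let every coordinate of `u` be almost determined, at level
`q`, by the projections of the directions along the lines `e_k` and `e_k + e_j`, together with the
coordinate `k` of the direction at level `q`. Then `u` is almost determined by `d` at level `q`.
-/

set_option autoImplicit false

namespace Pool.Agent.H56.K5

open Finset Real
open Pool.Agent.H49.Ent Pool.Agent.H32.Dense Pool.STK Pool.KA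

/-- Forget the coordinate `k`; for `o = some j` replace the coordinate `j` of the rest by half of
its difference with the coordinate `k`. -/
noncomputable def pj {m : ℕ} (k : Fin (m + 1)) (o : Option (Fin m)) (x : Fin (m + 1) → ℝ)
    (i : Fin m) : ℝ :=
  if o = some i then (x (k.succAbove i) - x k) / 2 else x (k.succAbove i)

lemma pj_abs {m : ℕ} (k : Fin (m + 1)) (o : Option (Fin m)) (x : Fin (m + 1) → ℝ) {r : ℝ}
    (h : ∀ i, |x i| ≤ r) (i : Fin m) : |pj k o x i| ≤ r := by
  unfold pj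
  split_ifs
  · have h1 := h (k.succAbove i)
    have h2 := h k
    rw [abs_le] at h1 h2 ⊢
    constructor <;> linarith [h1.1, h1.2, h2.1, h2.2]
  · exact h _

lemma pj_sub {m : ℕ} (k : Fin (m + 1)) (o : Option (Fin m)) (x y : Fin (m + 1) → ℝ) (i : Fin m) :
    pj k o (fun l => x l - y l) i = pj k o x i - pj k o y i := by
  unfold pj
  split_ifs <;> ring

lemma pj_add_mul {m : ℕ} (k : Fin (m + 1)) (o : Option (Fin m)) (x y : Fin (m + 1) → ℝ) (t : ℝ)
    (i : Fin m) : pj k o (fun l => x l + t * y l) i = pj k o x i + t * pj k o y i := by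
  unfold pj
  split_ifs <;> ring

lemma fl_ap {m : ℕ} (j : ℕ) (x : Fin m → ℝ) (i : Fin m) : fl j x i = ⌊(2 : ℝ) ^ j * x i⌋ := rfl

lemma pj_none {m : ℕ} (k : Fin (m + 1)) (x : Fin (m + 1) → ℝ) (i : Fin m) :
    pj k none x i = x (k.succAbove i) := by
  simp [pj]

lemma pj_some {m : ℕ} (k : Fin (m + 1)) (j : Fin m) (x : Fin (m + 1) → ℝ) :
    pj k (some j) x j = (x (k.succAbove j) - x k) / 2 := by
  simp [pj]

lemma pj_ne {m : ℕ} (k : Fin (m + 1)) (j : Fin m) (x : Fin (m + 1) → ℝ) {i : Fin m}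
    (h : i ≠ j) : pj k (some j) x i = x (k.succAbove i) := by
  have h' : ¬ (some j = some i) := fun h'' => h (Option.some.inj h'').symm
  simp only [pj, h', if_false]

/-- The vector of the directions, with precision `q` on `S` and `J` off `S`. -/
noncomputable def mx {Ω : Type} {m : ℕ} (q J : ℕ) (d : Ω → Fin (m + 1) → ℝ)
    (S : Finset (Fin (m + 1))) (ω : Ω) (i : Fin (m + 1)) : ℤ :=
  if i ∈ S then ⌊(2 : ℝ) ^ q * d ω i⌋ else ⌊(2 : ℝ) ^ J * d ω i⌋

variable {m J : ℕ} {Ω ζ : Type} [Fintype Ω] {p : Ω → ℝ}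

lemma full_aux (hp : IsLaw p) (d : Ω → Fin (m + 1) → ℝ) (Z : Ω → ζ) {e : ℝ}
    (h2 : ∀ k, (J : ℝ) * Real.log 2 - e ≤ CH p (fun ω => ⌊(2 : ℝ) ^ J * d ω k⌋)
      (fun ω => (fl J (pj k none (d ω)), Z ω))) (S : Finset (Fin (m + 1))) :
    (S.card : ℝ) * ((J : ℝ) * Real.log 2 - e) ≤
      CH p (fun ω i => if i ∈ S then ⌊(2 : ℝ) ^ J * d ω i⌋ else 0) Z := by
  have h0 := hp.nonneg
  induction S using Finset.induction_on with
  | empty =>
    rw [Finset.card_empty, Nat.cast_zero, zero_mul]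
    exact CH_nonneg h0 _ _
  | insert k S hk ih =>
    rw [Finset.card_insert_of_notMem hk]
    push_cast
    have e1 := CH_chain h0 (fun ω => ⌊(2 : ℝ) ^ J * d ω k⌋)
      (fun ω i => if i ∈ S then ⌊(2 : ℝ) ^ J * d ω i⌋ else 0) Z
    have e2 : CH p (fun ω => (⌊(2 : ℝ) ^ J * d ω k⌋,
        fun i => if i ∈ S then ⌊(2 : ℝ) ^ J * d ω i⌋ else 0)) Z ≤
        CH p (fun ω i => if i ∈ insert k S then ⌊(2 : ℝ) ^ J * d ω i⌋ else 0) Z := by
      refine CH_mono_left h0 fun ω ω' _ _ h => ?_
      have h3 := (Prod.ext_iff.mp h).1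
      have h4 := congrFun h3 k
      simp only [Finset.mem_insert_self, if_true] at h4
      refine Prod.ext h4 (funext fun i => ?_)
      by_cases hi : i ∈ S
      · have h5 := congrFun h3 i
        simp only [Finset.mem_insert, hi, or_true, if_true] at h5
        simp only [hi, if_true]
        exact h5
      · simp only [hi, if_false]
    have e3 : CH p (fun ω => ⌊(2 : ℝ) ^ J * d ω k⌋) (fun ω => (fl J (pj k none (d ω)), Z ω)) ≤
        CH p (fun ω => ⌊(2 : ℝ) ^ J * d ω k⌋)
          (fun ω => ((fun i => if i ∈ S then ⌊(2 : ℝ) ^ J * d ω i⌋ else 0), Z ω)) := by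
      refine CH_mono_cond h0 fun ω ω' _ _ h => ?_
      have h3 := Prod.ext_iff.mp h
      refine Prod.ext (funext fun i => ?_) h3.2
      by_cases hi : i ∈ S
      · have hik : i ≠ k := fun h => hk (h ▸ hi)
        obtain ⟨i', hi'⟩ := Fin.exists_succAbove_eq hik
        have h5 := congrFun h3.1 i'
        simp only [fl_ap, pj_none, hi'] at h5
        simp only [hi, if_true]
        exact h5
      · simp only [hi, if_false]
    have e4 := h2 k
    linarith

lemma full (hp : IsLaw p) (d : Ω → Fin (m + 1) → ℝ) (Z : Ω → ζ) {e : ℝ}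
    (h2 : ∀ k, (J : ℝ) * Real.log 2 - e ≤ CH p (fun ω => ⌊(2 : ℝ) ^ J * d ω k⌋)
      (fun ω => (fl J (pj k none (d ω)), Z ω))) :
    ((m : ℝ) + 1) * ((J : ℝ) * Real.log 2 - e) ≤ CH p (Fl d J) Z := by
  have h := full_aux hp d Z h2 Finset.univ
  rw [Finset.card_univ, Fintype.card_fin] at h
  push_cast at h
  refine h.trans (le_of_eq ?_)
  congr 1
  funext ω i
  simp [Fl, fl_ap]

/-- Vectors all of whose coordinates are known up to `3 * 2 ^ (-q)`. -/
lemma capv {n : ℕ} {T : Type} (hp : IsLaw p) {j q : ℕ} (hq : q ≤ j) (x : Ω → Fin n → ℝ)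
    (W : Ω → T) (h : ∀ ω ω' i, W ω = W ω' → |x ω i - x ω' i| ≤ 3 * ((2 : ℝ) ^ q)⁻¹) :
    CH p (Fl x j) W ≤ n * (((j : ℝ) - q) * Real.log 2 + Real.log 9) := by
  refine (Q22.CH_pi hp.nonneg W n (Fl x j)).trans ?_
  have h1 : ∀ i ∈ (Finset.univ : Finset (Fin n)), CH p (fun ω => Fl x j ω i) W ≤
      (((j : ℝ) - q) * Real.log 2 + Real.log 9) := fun i _ =>
    cap hp hq (fun ω => x ω i) W (fun ω ω' e => h ω ω' i e)
  refine (Finset.sum_le_sum h1).trans ?_
  rw [Finset.sum_const, Finset.card_univ, Fintype.card_fin, nsmul_eq_mul]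

lemma mx_le (hp : IsLaw p) (d : Ω → Fin (m + 1) → ℝ) (hd : ∀ ω i, |d ω i| ≤ 1) (Z : Ω → ζ)
    (q : ℕ) (S : Finset (Fin (m + 1))) :
    CH p (mx q J d S) Z ≤ ((m : ℝ) + 1) * ((J : ℝ) * Real.log 2 + Real.log 9) -
      S.card * (((J : ℝ) - q) * Real.log 2) := by
  refine (Q22.CH_pi hp.nonneg Z (m + 1) (mx q J d S)).trans ?_
  have hb : ∀ ω ω' : Ω, ∀ i, |d ω i - d ω' i| ≤ 3 * ((2 : ℝ) ^ 0)⁻¹ := fun ω ω' i => by
    have a1 := hd ω i
    have a2 := hd ω' i
    rw [abs_le] at a1 a2 ⊢
    norm_num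
    constructor <;> linarith [a1.1, a1.2, a2.1, a2.2]
  have h1 : ∀ i ∈ (Finset.univ : Finset (Fin (m + 1))), CH p (fun ω => mx q J d S ω i) Z ≤
      ((J : ℝ) * Real.log 2 + Real.log 9) - (if i ∈ S then ((J : ℝ) - q) * Real.log 2 else 0) := by
    intro i _
    by_cases hi : i ∈ S
    · have h2 := cap hp (Nat.zero_le q) (fun ω => d ω i) Z (fun ω ω' _ => hb ω ω' i)
      simp only [mx, hi, if_true]
      push_cast at h2
      linarith
    · have h2 := cap hp (Nat.zero_le J) (fun ω => d ω i) Z (fun ω ω' _ => hb ω ω' i)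
      simp only [mx, hi, if_false]
      push_cast at h2
      linarith
  refine (Finset.sum_le_sum h1).trans ?_
  rw [Finset.sum_sub_distrib, Finset.sum_const, Finset.card_univ, Fintype.card_fin, nsmul_eq_mul,
    Finset.sum_ite_mem, Finset.univ_inter, Finset.sum_const, nsmul_eq_mul]
  push_cast
  exact le_rfl

section step

variable (u d : Ω → Fin (m + 1) → ℝ) (Z : Ω → ζ) {e : ℝ} {q : ℕ} (k : Fin (m + 1))
  (S : Finset (Fin (m + 1))) (j : Fin m)

/-- The second variable of the step. -/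
noncomputable def bv (q J : ℕ) (d : Ω → Fin (m + 1) → ℝ) (k : Fin (m + 1)) (j : Fin m) (ω : Ω) :
    (Fin m → ℤ) × ℤ := (fl J (pj k (some j) (d ω)), ⌊(2 : ℝ) ^ q * d ω k⌋)

lemma base (hp : IsLaw p)
    (h1 : CH p (fun ω => ⌊(2 : ℝ) ^ q * u ω k⌋)
      (fun ω => ((fl J (pj k none (d ω)), ⌊(2 : ℝ) ^ q * d ω k⌋), Z ω)) ≤ e) :
    CH p (fun ω => ⌊(2 : ℝ) ^ q * u ω k⌋) (fun ω => (mx q J d (insert k ∅) ω, Z ω)) ≤ e := by
  refine le_trans (CH_mono_cond hp.nonneg fun ω ω' _ _ h => ?_) h1
  have h3 := Prod.ext_iff.mp h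
  refine Prod.ext (Prod.ext (funext fun i => ?_) ?_) h3.2
  · have h4 := congrFun h3.1 (k.succAbove i)
    have h5 : k.succAbove i ∉ insert k (∅ : Finset (Fin (m + 1))) := by
      simp [Fin.succAbove_ne]
    simp only [mx, h5, if_false] at h4
    simp only [fl_ap, pj_none]
    exact h4
  · have h4 := congrFun h3.1 k
    simp only [mx, Finset.mem_insert_self, if_true] at h4
    exact h4

lemma A_le (hp : IsLaw p) (hq : q ≤ J) :
    CH p (mx q J d (insert k S))
      (fun ω => (mx q J d (insert k (insert (k.succAbove j) S)) ω, Z ω)) ≤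
      ((J : ℝ) - q) * Real.log 2 + Real.log 9 := by
  have hjk : k.succAbove j ≠ k := Fin.succAbove_ne _ _
  refine le_trans (CH_mono_left hp.nonneg (X' := fun ω => ⌊(2 : ℝ) ^ J * d ω (k.succAbove j)⌋)
    fun ω ω' _ _ h => ?_) (cap hp hq (fun ω => d ω (k.succAbove j)) _ fun ω ω' h => ?_)
  · have h3 := Prod.ext_iff.mp h
    have h4 := (Prod.ext_iff.mp h3.2).1
    refine funext fun i => ?_
    have h5 := congrFun h4 i
    by_cases hi : i ∈ insert k S
    · have hi' : i ∈ insert k (insert (k.succAbove j) S) := by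
        simp only [Finset.mem_insert] at hi ⊢
        tauto
      simp only [mx, hi', if_true] at h5
      simp only [mx, hi, if_true]
      exact h5
    · by_cases hij : i = k.succAbove j
      · subst hij
        simp only [mx, hi, if_false]
        exact h3.1
      · have hi' : i ∉ insert k (insert (k.succAbove j) S) := by
          simp only [Finset.mem_insert] at hi ⊢
          tauto
        simp only [mx, hi', if_false] at h5
        simp only [mx, hi, if_false]
        exact h5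
  · have h4 := congrFun (Prod.ext_iff.mp h).1 (k.succAbove j)
    have hi' : k.succAbove j ∈ insert k (insert (k.succAbove j) S) := by
      simp
    simp only [mx, hi', if_true] at h4
    have h5 := floor_close h4
    have h6 : (0 : ℝ) ≤ ((2 : ℝ) ^ q)⁻¹ := by positivity
    linarith

omit [Fintype Ω] in
lemma mx_q {ω ω' : Ω} {T : Finset (Fin (m + 1))} (h : mx q J d T ω = mx q J d T ω')
    {i : Fin (m + 1)} (hi : i ∈ T) : |d ω i - d ω' i| ≤ ((2 : ℝ) ^ q)⁻¹ := by
  have h4 := congrFun h i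
  simp only [mx, hi, if_true] at h4
  exact floor_close h4

omit [Fintype Ω] in
lemma mx_J {ω ω' : Ω} {T : Finset (Fin (m + 1))} (h : mx q J d T ω = mx q J d T ω')
    {i : Fin (m + 1)} (hi : i ∉ T) : |d ω i - d ω' i| ≤ ((2 : ℝ) ^ J)⁻¹ := by
  have h4 := congrFun h i
  simp only [mx, hi, if_false] at h4
  exact floor_close h4

lemma B_le (hp : IsLaw p) (hq : q ≤ J) :
    CH p (bv q J d k j)
      (fun ω => (mx q J d (insert k (insert (k.succAbove j) S)) ω, Z ω)) ≤
      ((S.card : ℝ) + 1) * (((J : ℝ) - q) * Real.log 2) + m * Real.log 9 := by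
  have hJq : 0 ≤ ((J : ℝ) - q) * Real.log 2 := by
    have h1 : (q : ℝ) ≤ J := by exact_mod_cast hq
    have h2 : 0 < Real.log 2 := Real.log_pos (by norm_num)
    have h3 : 0 ≤ (J : ℝ) - q := by linarith
    positivity
  have h6 : (0 : ℝ) ≤ ((2 : ℝ) ^ q)⁻¹ := by positivity
  have h7 : (0 : ℝ) ≤ ((2 : ℝ) ^ J)⁻¹ := by positivity
  refine (CH_subadd hp.nonneg _ _ _).trans ?_
  have hz : CH p (fun ω => ⌊(2 : ℝ) ^ q * d ω k⌋)
      (fun ω => (mx q J d (insert k (insert (k.succAbove j) S)) ω, Z ω)) = 0 := by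
    refine CH_eq_zero hp.nonneg fun ω ω' _ _ h => ?_
    have h4 := congrFun (Prod.ext_iff.mp h).1 k
    simp only [mx, Finset.mem_insert_self, if_true] at h4
    exact h4
  rw [hz, add_zero]
  refine (Q22.CH_pi hp.nonneg _ m (fun ω => fl J (pj k (some j) (d ω)))).trans ?_
  have hs : ∀ i ∈ (Finset.univ : Finset (Fin m)),
      CH p (fun ω => fl J (pj k (some j) (d ω)) i)
        (fun ω => (mx q J d (insert k (insert (k.succAbove j) S)) ω, Z ω)) ≤
      (if i ∈ Finset.univ.filter (fun i : Fin m => k.succAbove i ∈ insert (k.succAbove j) S) then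
        ((J : ℝ) - q) * Real.log 2 else 0) + Real.log 9 := by
    intro i _
    simp only [Finset.mem_filter, Finset.mem_univ, true_and]
    by_cases hij : i = j
    · subst hij
      rw [if_pos (Finset.mem_insert_self _ _)]
      refine cap hp hq (fun ω => pj k (some i) (d ω) i) _ fun ω ω' h => ?_
      have h3 := (Prod.ext_iff.mp h).1
      have a1 := mx_q d h3 (i := k) (by simp)
      have a2 := mx_q d h3 (i := k.succAbove i) (by simp)
      rw [pj_some, pj_some]
      rw [abs_le] at a1 a2 ⊢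
      constructor <;> linarith [a1.1, a1.2, a2.1, a2.2]
    · by_cases hi : k.succAbove i ∈ insert (k.succAbove j) S
      · rw [if_pos hi]
        refine cap hp hq (fun ω => pj k (some j) (d ω) i) _ fun ω ω' h => ?_
        have h3 := (Prod.ext_iff.mp h).1
        have a2 := mx_q d h3 (i := k.succAbove i) (Finset.mem_insert_of_mem hi)
        rw [pj_ne k j _ hij, pj_ne k j _ hij]
        linarith
      · rw [if_neg hi]
        have h5 := cap hp le_rfl (fun ω => pj k (some j) (d ω) i)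
          (fun ω => (mx q J d (insert k (insert (k.succAbove j) S)) ω, Z ω))
          (j := J) (q := J) fun ω ω' h => by
          have h3 := (Prod.ext_iff.mp h).1
          have hi' : k.succAbove i ∉ insert k (insert (k.succAbove j) S) := by
            rw [Finset.mem_insert, not_or]
            exact ⟨Fin.succAbove_ne _ _, hi⟩
          have a2 := mx_J d h3 (i := k.succAbove i) hi'
          rw [pj_ne k j _ hij, pj_ne k j _ hij]
          linarith
        rw [sub_self, zero_mul] at h5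
        exact h5
  refine (Finset.sum_le_sum hs).trans ?_
  rw [Finset.sum_add_distrib, Finset.sum_const, Finset.card_univ, Fintype.card_fin, nsmul_eq_mul,
    Finset.sum_ite_mem, Finset.univ_inter, Finset.sum_const, nsmul_eq_mul]
  have hc : (Finset.univ.filter
      (fun i : Fin m => k.succAbove i ∈ insert (k.succAbove j) S)).card ≤ S.card + 1 := by
    refine le_trans (Finset.card_le_card_of_injOn (t := insert (k.succAbove j) S)
      (fun i => k.succAbove i) (fun i hi => ?_) (Fin.succAbove_right_injective.injOn))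
      (Finset.card_insert_le _ _)
    simpa using hi
  have hc' : (((Finset.univ.filter
      (fun i : Fin m => k.succAbove i ∈ insert (k.succAbove j) S)).card : ℕ) : ℝ) ≤
      (S.card : ℝ) + 1 := by exact_mod_cast hc
  have := mul_le_mul_of_nonneg_right hc' hJq
  linarith

lemma AB_ge (hp : IsLaw p) (hj : k.succAbove j ∉ S) :
    CH p (Fl d J) Z ≤
      CH p (fun ω => (mx q J d (insert k S) ω, bv q J d k j ω))
        (fun ω => (mx q J d (insert k (insert (k.succAbove j) S)) ω, Z ω)) +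
      CH p (mx q J d (insert k (insert (k.succAbove j) S))) Z +
      ((m : ℝ) + 1) * Real.log 9 := by
  have h7 : (0 : ℝ) ≤ ((2 : ℝ) ^ J)⁻¹ := by positivity
  have e1 := CH_le_add hp.nonneg (Fl d J)
    (fun ω => ((mx q J d (insert k S) ω, bv q J d k j ω),
      mx q J d (insert k (insert (k.succAbove j) S)) ω)) Z
  have e2 := CH_chain hp.nonneg (fun ω => (mx q J d (insert k S) ω, bv q J d k j ω))
    (mx q J d (insert k (insert (k.succAbove j) S))) Z
  have e3 := capv hp (le_refl J) d (fun ω => (((mx q J d (insert k S) ω, bv q J d k j ω),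
      mx q J d (insert k (insert (k.succAbove j) S)) ω), Z ω)) fun ω ω' i h => by
    have h3 := (Prod.ext_iff.mp (Prod.ext_iff.mp h).1).1
    have h4 := (Prod.ext_iff.mp h3).1
    have h5 := (Prod.ext_iff.mp (Prod.ext_iff.mp h3).2).1
    have hjS : k.succAbove j ∉ insert k S := by
      rw [Finset.mem_insert, not_or]
      exact ⟨Fin.succAbove_ne _ _, hj⟩
    by_cases hik : i = k
    · have a1 := mx_J d h4 hjS
      have a2 := floor_close (congrFun h5 j)
      rw [pj_some, pj_some] at a2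
      rw [hik]
      rw [abs_le] at a1 a2 ⊢
      constructor <;> linarith [a1.1, a1.2, a2.1, a2.2]
    · by_cases hi : i ∈ insert k S
      · obtain ⟨i', hi'⟩ := Fin.exists_succAbove_eq hik
        have hne : i' ≠ j := by
          rintro rfl
          exact hjS (hi' ▸ hi)
        have a2 := floor_close (congrFun h5 i')
        rw [pj_ne k j _ hne, pj_ne k j _ hne, hi'] at a2
        linarith
      · have a1 := mx_J d h4 hi
        linarith
  rw [sub_self, zero_mul, zero_add] at e3
  push_cast at e3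
  linarith

lemma ind (hp : IsLaw p) (hd : ∀ ω i, |d ω i| ≤ 1) (hq : q ≤ J)
    (h1 : ∀ o, CH p (fun ω => ⌊(2 : ℝ) ^ q * u ω k⌋)
      (fun ω => ((fl J (pj k o (d ω)), ⌊(2 : ℝ) ^ q * d ω k⌋), Z ω)) ≤ e)
    (h2 : ∀ k, (J : ℝ) * Real.log 2 - e ≤ CH p (fun ω => ⌊(2 : ℝ) ^ J * d ω k⌋)
      (fun ω => (fl J (pj k none (d ω)), Z ω))) :
    k ∉ S → CH p (fun ω => ⌊(2 : ℝ) ^ q * u ω k⌋) (fun ω => (mx q J d (insert k S) ω, Z ω)) ≤
      e + S.card * (((m : ℝ) + 2) * e + (3 * m + 3) * Real.log 9) := by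
  have h0 := hp.nonneg
  induction S using Finset.induction_on with
  | empty =>
    intro _
    rw [Finset.card_empty, Nat.cast_zero, zero_mul, add_zero]
    exact base u d Z k hp (h1 none)
  | insert a S ha ih =>
    intro hk
    rw [Finset.mem_insert, not_or] at hk
    have ih := ih hk.2
    obtain ⟨j, rfl⟩ := Fin.exists_succAbove_eq (Ne.symm hk.1)
    have s1 := shannon hp (fun ω => ⌊(2 : ℝ) ^ q * u ω k⌋) (mx q J d (insert k S))
      (bv q J d k j) (fun ω => (mx q J d (insert k (insert (k.succAbove j) S)) ω, Z ω))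
    have s2 := A_le (J := J) d Z k S j hp hq
    have s3 := B_le (J := J) d Z k S j hp hq
    have s4 := AB_ge (J := J) (q := q) d Z k S j hp ha
    have s5 := full hp d Z h2
    have s6 := mx_le (J := J) hp d hd Z q (insert k (insert (k.succAbove j) S))
    have s7 : CH p (fun ω => ⌊(2 : ℝ) ^ q * u ω k⌋)
        (fun ω => (mx q J d (insert k S) ω,
          (mx q J d (insert k (insert (k.succAbove j) S)) ω, Z ω))) ≤
        CH p (fun ω => ⌊(2 : ℝ) ^ q * u ω k⌋) (fun ω => (mx q J d (insert k S) ω, Z ω)) :=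
      CH_mono_cond h0 fun ω ω' _ _ h => by
        simp only [Prod.mk.injEq] at h ⊢
        tauto
    have s8 : CH p (fun ω => ⌊(2 : ℝ) ^ q * u ω k⌋)
        (fun ω => (bv q J d k j ω,
          (mx q J d (insert k (insert (k.succAbove j) S)) ω, Z ω))) ≤
        CH p (fun ω => ⌊(2 : ℝ) ^ q * u ω k⌋)
          (fun ω => ((fl J (pj k (some j) (d ω)), ⌊(2 : ℝ) ^ q * d ω k⌋), Z ω)) :=
      CH_mono_cond h0 fun ω ω' _ _ h => by
        have h3 := Prod.ext_iff.mp h
        exact Prod.ext h3.1 (Prod.ext_iff.mp h3.2).2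
    have s9 := h1 (some j)
    have hk' : k ∉ insert (k.succAbove j) S := by
      rw [Finset.mem_insert, not_or]
      exact hk
    rw [Finset.card_insert_of_notMem hk', Finset.card_insert_of_notMem ha] at s6
    rw [Finset.card_insert_of_notMem ha]
    push_cast at s6 ⊢
    linarith

end step

/-- **Near-full families are sticky.** -/
theorem near_sticky (hp : IsLaw p) (u d : Ω → Fin (m + 1) → ℝ) (hd : ∀ ω i, |d ω i| ≤ 1)
    (Z : Ω → ζ) {e : ℝ} {q : ℕ} (hq : q ≤ J)
    (h1 : ∀ k o, CH p (fun ω => ⌊(2 : ℝ) ^ q * u ω k⌋)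
      (fun ω => ((fl J (pj k o (d ω)), ⌊(2 : ℝ) ^ q * d ω k⌋), Z ω)) ≤ e)
    (h2 : ∀ k, (J : ℝ) * Real.log 2 - e ≤ CH p (fun ω => ⌊(2 : ℝ) ^ J * d ω k⌋)
      (fun ω => (fl J (pj k none (d ω)), Z ω))) :
    CH p (Fl u q) (fun ω => (Fl d q ω, Z ω)) ≤
      ((m : ℝ) + 1) * (e + m * (((m : ℝ) + 2) * e + (3 * m + 3) * Real.log 9)) := by
  refine (Q22.CH_pi hp.nonneg _ (m + 1) (Fl u q)).trans ?_
  have h3 : ∀ k ∈ (Finset.univ : Finset (Fin (m + 1))),
      CH p (fun ω => Fl u q ω k) (fun ω => (Fl d q ω, Z ω)) ≤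
      e + m * (((m : ℝ) + 2) * e + (3 * m + 3) * Real.log 9) := by
    intro k _
    have h4 := ind (J := J) u d Z k (Finset.univ.erase k) hp hd hq (h1 k) h2
      (Finset.notMem_erase _ _)
    rw [Finset.card_erase_of_mem (Finset.mem_univ _), Finset.card_univ, Fintype.card_fin,
      Nat.add_sub_cancel, Finset.insert_erase (Finset.mem_univ _)] at h4
    refine le_trans (le_of_eq ?_) h4
    congr 1
    funext ω
    congr 1
    funext i
    simp [mx, Fl, fl_ap]
  refine (Finset.sum_le_sum h3).trans ?_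
  rw [Finset.sum_const, Finset.card_univ, Fintype.card_fin, nsmul_eq_mul]
  push_cast
  exact le_rfl

end Pool.Agent.H56.K5
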