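import Pool.Agent.H56.K5.Vb
import Pool.Agent.H21.STE.All
import Pool.Agent.H56.KPM.Thm

/-!
# Kakeya sets in the Euclidean space of dimension five

Hausdorff dimension at least `4 + c`, and the density bound for tubes with the loss
`δ ^ (1 - c)`, for an absolute constant `c > 0`.
-/

set_option autoImplicit false

namespace Pool.Agent.H56.K5

open Finset Real MeasureTheory
open Pool.Agent.H49.Ent Pool.Agent.H32.Dense Pool.STK Pool.KA
open Pool.Agent.H53.Kak (E tube)

/-- The sticky theorem with times dependent on the line. -/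
theorem kst (m : ℕ) : KST m := by
  intro a ha R hR
  obtain ⟨ε, hε, θ, hθ, J₀, h⟩ := Pool.STE.kst m a R ha hR
  exact ⟨ε, hε, θ, hθ, J₀, fun J hJ F hT hS => h J hJ F hT hS⟩

/-- In one dimension more than a dimension in which `KP` holds, the violation is at most
`(1 - c) J log 2`. -/
theorem vb_succ {m : ℕ} (hK : KP m) : ∃ c > 0, c ≤ 1 ∧ VB (m + 1) ((1 - c) * Real.log 2) :=
  vb_of hK (kst _)

/-- The violation in dimension four. -/
theorem vb_four : ∃ c > 0, c ≤ 1 ∧ VB 4 ((1 - c) * Real.log 2) :=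
  vb_succ Pool.PB.kp3_thm

/-- Shaded tubes in dimension five, and the Hausdorff dimension of Kakeya sets. -/
theorem five : ∃ c : ℝ, 0 < c ∧ c ≤ 1 ∧ Pool.KRN.DensG 4 (1 - c) ∧ ∀ K : Set (E 4),
    (∀ e : E 4, ‖e‖ = 1 → ∃ x : E 4, ∀ t : ℝ, 0 ≤ t → t ≤ 1 → x + t • e ∈ K) →
    ENNReal.ofReal (4 + c) ≤ dimH K := by
  obtain ⟨c, hc0, hc1, h⟩ := dens_of (m := 3) (by norm_num) Pool.PB.kp3_thm (kst _)
  have h' : Pool.KRN.DensG 4 (1 - c) := h
  refine ⟨c, hc0, hc1, h', fun K hKK => ?_⟩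
  have h1 := Pool.KRN.t_geo2 4 (1 - c) (by linarith) (by push_cast; linarith) h' K hKK
  refine le_trans (le_of_eq ?_) h1
  congr 1
  push_cast
  ring

end Pool.Agent.H56.K5
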