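import Pool.Agent.H56.K5.Near

/-!
# The inequality for projections along two kinds of lines

For a family of lines in dimension `m + 1` the inequality `KP m` for its projections along `e_k` and
`e_k + e_j`, conditioned on the coordinate `k` of the line at level `q`, bounds the violation by
`J log 2` minus the entropy of the coordinate `k` of the position given the projected directions.
-/

set_option autoImplicit false

namespace Pool.Agent.H56.K5

open Finset Real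
open Pool.Agent.H49.Ent Pool.Agent.H32.Dense Pool.STK Pool.KA

variable {m J : ℕ}

/-- Projection of a family. -/
noncomputable def prj (F : Fam (m + 1) J) (k : Fin (m + 1)) (o : Option (Fin m)) : Fam m J where
  Ω := F.Ω
  ζ := F.ζ
  fin := F.fin
  p := F.p
  u := fun ω => pj k o (F.u ω)
  d := fun ω => pj k o (F.d ω)
  T := F.T
  Z := F.Z
  isLaw := F.isLaw
  dir := fun ω i => pj_abs k o _ (F.dir ω) i
  tim := F.tim

/-- Coordinate `k` of the line at level `q`. -/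
noncomputable def zk (F : Fam (m + 1) J) (k : Fin (m + 1)) (q : ℕ) (ω : F.Ω) : ℤ × ℤ :=
  (⌊(2 : ℝ) ^ q * F.u ω k⌋, ⌊(2 : ℝ) ^ q * F.d ω k⌋)

lemma prj_X (F : Fam (m + 1) J) (k : Fin (m + 1)) (o : Option (Fin m)) (j : ℕ) :
    (prj F k o).X j = fun ω => fl j (pj k o (F.x ω)) := by
  funext ω
  have : (prj F k o).x ω = pj k o (F.x ω) := by
    funext i
    exact (pj_add_mul k o (F.u ω) (F.d ω) (F.t ω) i).symm
  unfold Fam.X
  rw [this]

lemma tm_prj (F : Fam (m + 1) J) (k : Fin (m + 1)) (o : Option (Fin m)) (q : ℕ) {a : ℝ}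
    (h : F.Tm a) : ((prj F k o).cnd (zk F k q)).Tm a := by
  refine le_trans h (CH_mono_cond F.isLaw.nonneg fun ω ω' _ _ e => ?_)
  have e1 := Prod.ext_iff.mp e
  have e2 := Prod.ext_iff.mp e1.1
  have e3 : F.u ω = F.u ω' := e2.1
  have e4 : F.d ω = F.d ω' := e2.2
  have e5 : F.Z ω = F.Z ω' := e1.2
  refine Prod.ext (Prod.ext ?_ ?_) (Prod.ext ?_ e5)
  · change pj k o (F.u ω) = pj k o (F.u ω')
    rw [e3]
  · change pj k o (F.d ω) = pj k o (F.d ω')
    rw [e4]
  · change zk F k q ω = zk F k q ω'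
    unfold zk
    rw [e3, e4]

lemma tm_prj' (F : Fam (m + 1) J) (k : Fin (m + 1)) (o : Option (Fin m)) {a : ℝ}
    (h : F.Tm a) : (prj F k o).Tm a := by
  refine le_trans h (CH_mono_cond F.isLaw.nonneg fun ω ω' _ _ e => ?_)
  have e1 := Prod.ext_iff.mp e
  have e2 := Prod.ext_iff.mp e1.1
  have e3 : F.u ω = F.u ω' := e2.1
  have e4 : F.d ω = F.d ω' := e2.2
  have e5 : F.Z ω = F.Z ω' := e1.2
  refine Prod.ext (Prod.ext ?_ ?_) e5
  · change pj k o (F.u ω) = pj k o (F.u ω')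
    rw [e3]
  · change pj k o (F.d ω) = pj k o (F.d ω')
    rw [e4]

lemma CH_T_le (F : Fam (m + 1) J) : CH F.p F.T F.Z ≤ J * Real.log 2 := by
  refine (CH_le_card F.isLaw.nonneg F.isLaw.sum_one F.T F.Z (fun _ => Finset.range (2 ^ J))
    (fun ω _ => Finset.mem_range.mpr (F.tim ω))).trans ?_
  rw [Finset.card_range, Ex_const F.isLaw.sum_one]
  push_cast
  rw [Real.log_pow]

lemma pj_close {k : Fin (m + 1)} {o : Option (Fin m)} {x y : Fin (m + 1) → ℝ} {j : ℕ}
    (h : fl j x = fl j y) (i : Fin m) : |pj k o x i - pj k o y i| ≤ ((2 : ℝ) ^ j)⁻¹ := by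
  rw [← pj_sub]
  refine pj_abs k o _ (fun l => ?_) i
  exact floor_close (congrFun h l)

/-- The projected positions have at most the entropy of the positions. -/
lemma X_prj_le {κ : Type} (F : Fam (m + 1) J) (k : Fin (m + 1)) (o : Option (Fin m))
    (W : F.Ω → κ) :
    CH F.p (fun ω => fl J (pj k o (F.x ω))) W ≤ CH F.p (F.X J) W + m * Real.log 9 := by
  have e1 := CH_le_add F.isLaw.nonneg (fun ω => fl J (pj k o (F.x ω))) (F.X J) W
  have e2 := capv F.isLaw (le_refl J) (fun ω => pj k o (F.x ω)) (fun ω => (F.X J ω, W ω))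
    fun ω ω' i h => by
      have h7 : (0 : ℝ) ≤ ((2 : ℝ) ^ J)⁻¹ := by positivity
      have h3 := pj_close (k := k) (o := o) (Prod.ext_iff.mp h).1 i
      linarith
  rw [sub_self, zero_mul, zero_add] at e2
  exact e1.trans (add_le_add le_rfl e2)

/-- The direction is determined by its projection and its coordinate `k`. -/
lemma D_prj_le {κ : Type} (F : Fam (m + 1) J) (k : Fin (m + 1)) (o : Option (Fin m))
    (W : F.Ω → κ) (hW : ∀ ω ω', W ω = W ω' → fl J (pj k o (F.d ω)) = fl J (pj k o (F.d ω'))) :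
    CH F.p (F.D J) W ≤ CH F.p (fun ω => ⌊(2 : ℝ) ^ J * F.d ω k⌋) W +
      ((m : ℝ) + 1) * Real.log 9 := by
  have e1 := CH_le_add F.isLaw.nonneg (F.D J) (fun ω => ⌊(2 : ℝ) ^ J * F.d ω k⌋) W
  have e2 := capv F.isLaw (le_refl J) F.d (fun ω => (⌊(2 : ℝ) ^ J * F.d ω k⌋, W ω))
    fun ω ω' i h => by
      have h7 : (0 : ℝ) ≤ ((2 : ℝ) ^ J)⁻¹ := by positivity
      have h3 := Prod.ext_iff.mp h
      have h4 := hW ω ω' h3.2
      have h5 := floor_close h3.1
      by_cases hik : i = k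
      · rw [hik]
        linarith
      · obtain ⟨i', hi'⟩ := Fin.exists_succAbove_eq hik
        have h6 := floor_close (congrFun h4 i')
        rcases o with _ | j
        · rw [pj_none, pj_none, hi'] at h6
          linarith
        · by_cases hj : i' = j
          · subst hj
            rw [pj_some, pj_some, hi'] at h6
            rw [abs_le] at h5 h6 ⊢
            constructor <;> linarith [h5.1, h5.2, h6.1, h6.2]
          · rw [pj_ne k j _ hj, pj_ne k j _ hj, hi'] at h6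
            linarith
  rw [sub_self, zero_mul, zero_add] at e2
  push_cast at e2
  exact e1.trans (add_le_add le_rfl e2)

lemma star_det (F : Fam (m + 1) J) (k : Fin (m + 1)) (o : Option (Fin m)) {q : ℕ} (hq : q ≤ J)
    {a b : ℝ} (hT : F.Tm a) (hV : ((prj F k o).cnd (zk F k q)).V J ≤ b) :
    F.V J + CH F.p (fun ω => ⌊(2 : ℝ) ^ q * F.u ω k⌋)
      (fun ω => ((fl J (pj k o (F.d ω)), ⌊(2 : ℝ) ^ q * F.d ω k⌋), F.Z ω)) ≤
      J * Real.log 2 + a + b + (2 * m + 4) * Real.log 9 := by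
  have h0 := F.isLaw.nonneg
  have hp := F.isLaw
  have hqn : (0 : ℝ) ≤ ((2 : ℝ) ^ q)⁻¹ := by positivity
  have hJq : ((2 : ℝ) ^ J)⁻¹ ≤ ((2 : ℝ) ^ q)⁻¹ := by
    gcongr
    norm_num
  -- the inequality of `KP m`
  have k1 : CH F.p (fun ω => fl J (pj k o (F.d ω))) (fun ω => (zk F k q ω, F.Z ω)) ≤
      CH F.p (fun ω => fl J (pj k o (F.x ω))) (fun ω => (F.T ω, (zk F k q ω, F.Z ω))) + b := by
    have h1 : ((prj F k o).cnd (zk F k q)).V J =
        CH F.p (fun ω => fl J (pj k o (F.d ω))) (fun ω => (zk F k q ω, F.Z ω)) -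
        CH F.p ((prj F k o).X J) (fun ω => (F.T ω, (zk F k q ω, F.Z ω))) -
        m * (((J : ℝ) - J) * Real.log 2) := rfl
    rw [prj_X] at h1
    rw [h1] at hV
    rw [sub_self, zero_mul, mul_zero, sub_zero] at hV
    linarith
  have k2 := X_prj_le F k o (fun ω => (F.T ω, (zk F k q ω, F.Z ω)))
  have k3 : CH F.p (F.X J) (fun ω => (F.T ω, (zk F k q ω, F.Z ω))) =
      CH F.p (F.X J) (fun ω => (zk F k q ω, F.W ω)) := by
    refine CH_congr h0 ?_ ?_ ?_ ?_
    · intro ω ω' _ _ h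
      exact (Prod.ext_iff.mp h).1
    · intro ω ω' _ _ h
      exact (Prod.ext_iff.mp h).1
    · intro ω ω' _ _ h
      have h1 := Prod.ext_iff.mp h
      have h2 := Prod.ext_iff.mp h1.2
      exact Prod.ext h2.1 (Prod.ext h1.1 h2.2)
    · intro ω ω' _ _ h
      have h1 := Prod.ext_iff.mp h
      have h2 := Prod.ext_iff.mp h1.2
      exact Prod.ext h2.1 (Prod.ext h1.1 h2.2)
  have k4 := CH_chain h0 (F.X J) (zk F k q) F.W
  have k5 := CH_chain h0 (zk F k q) (F.X J) F.W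
  have k6 : CH F.p (fun ω => (F.X J ω, zk F k q ω)) F.W =
      CH F.p (fun ω => (zk F k q ω, F.X J ω)) F.W := by
    refine CH_congr h0 ?_ ?_ (fun _ _ _ _ h => h) (fun _ _ _ _ h => h) <;>
    · intro ω ω' _ _ h
      have h1 := Prod.ext_iff.mp h
      have h2 := Prod.ext_iff.mp h1.1
      exact Prod.ext h2.2 h2.1
  -- the line coordinate given the position
  have k7 : CH F.p (zk F k q) (fun ω => (F.X J ω, F.W ω)) ≤ q * Real.log 2 + 2 * Real.log 9 := by
    have c1 := CH_chain h0 (fun ω => ⌊(2 : ℝ) ^ q * F.u ω k⌋) (fun ω => ⌊(2 : ℝ) ^ q * F.d ω k⌋)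
      (fun ω => (F.X J ω, F.W ω))
    have c2 := cap hp (Nat.zero_le q) (fun ω => F.d ω k) (fun ω => (F.X J ω, F.W ω))
      fun ω ω' _ => by
        have a1 := F.dir ω k
        have a2 := F.dir ω' k
        rw [abs_le] at a1 a2 ⊢
        norm_num
        constructor <;> linarith [a1.1, a1.2, a2.1, a2.2]
    have c3 := cap hp (le_refl q) (fun ω => F.u ω k)
      (fun ω => (⌊(2 : ℝ) ^ q * F.d ω k⌋, (F.X J ω, F.W ω))) fun ω ω' h => by
        have h1 := Prod.ext_iff.mp h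
        have h2 := Prod.ext_iff.mp h1.2
        have h3 := floor_close h1.1
        have h4 := floor_close (congrFun h2.1 k)
        have h5 : F.T ω = F.T ω' := (Prod.ext_iff.mp h2.2).1
        have h6 : F.t ω = F.t ω' := by unfold Fam.t; rw [h5]
        have t0 : 0 ≤ F.t ω' := by unfold Fam.t; positivity
        have t1 : F.t ω' ≤ 1 := by
          unfold Fam.t
          rw [div_le_one (by positivity)]
          have := F.tim ω'
          exact_mod_cast this.le
        have h7 : F.u ω k - F.u ω' k =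
            (F.x ω k - F.x ω' k) - F.t ω' * (F.d ω k - F.d ω' k) := by
          unfold Fam.x
          rw [h6]
          ring
        have h8 : |F.t ω' * (F.d ω k - F.d ω' k)| ≤ ((2 : ℝ) ^ q)⁻¹ := by
          rw [abs_mul, abs_of_nonneg t0]
          calc F.t ω' * |F.d ω k - F.d ω' k| ≤ 1 * ((2 : ℝ) ^ q)⁻¹ := by gcongr
            _ = _ := one_mul _
        rw [h7]
        have h9 := abs_sub (F.x ω k - F.x ω' k) (F.t ω' * (F.d ω k - F.d ω' k))
        linarith
    rw [sub_self, zero_mul, zero_add] at c3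
    push_cast at c2
    rw [sub_zero] at c2
    have c4 : CH F.p (zk F k q) (fun ω => (F.X J ω, F.W ω)) =
        CH F.p (fun ω => (⌊(2 : ℝ) ^ q * F.u ω k⌋, ⌊(2 : ℝ) ^ q * F.d ω k⌋))
          (fun ω => (F.X J ω, F.W ω)) := rfl
    linarith
  -- the time
  have k8 := CH_chain h0 (zk F k q) F.T F.Z
  have k9 := CH_chain h0 F.T (zk F k q) F.Z
  have k10 : CH F.p (fun ω => (zk F k q ω, F.T ω)) F.Z =
      CH F.p (fun ω => (F.T ω, zk F k q ω)) F.Z := by
    refine CH_congr h0 ?_ ?_ (fun _ _ _ _ h => h) (fun _ _ _ _ h => h) <;>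
    · intro ω ω' _ _ h
      have h1 := Prod.ext_iff.mp h
      have h2 := Prod.ext_iff.mp h1.1
      exact Prod.ext h2.2 h2.1
  have k11 : CH F.p (zk F k q) F.W = CH F.p (zk F k q) (fun ω => (F.T ω, F.Z ω)) := rfl
  have k12 := CH_T_le F
  have k13 : (J : ℝ) * Real.log 2 - a ≤ CH F.p F.T (fun ω => (zk F k q ω, F.Z ω)) := by
    refine le_trans hT (CH_mono_cond h0 fun ω ω' _ _ e => ?_)
    have e1 := Prod.ext_iff.mp e
    have e2 := Prod.ext_iff.mp e1.1
    have e3 : F.u ω = F.u ω' := e2.1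
    have e4 : F.d ω = F.d ω' := e2.2
    refine Prod.ext ?_ e1.2
    change zk F k q ω = zk F k q ω'
    unfold zk
    rw [e3, e4]
  -- the directions
  have k14 := CH_le_add h0 (F.D J) (fun ω => (fl J (pj k o (F.d ω)), ⌊(2 : ℝ) ^ q * F.d ω k⌋)) F.Z
  have k15 := D_prj_le F k o
    (fun ω => ((fl J (pj k o (F.d ω)), ⌊(2 : ℝ) ^ q * F.d ω k⌋), F.Z ω)) (fun ω ω' h =>
      (Prod.ext_iff.mp (Prod.ext_iff.mp h).1).1)
  have k16 := cap hp hq (fun ω => F.d ω k)
    (fun ω => ((fl J (pj k o (F.d ω)), ⌊(2 : ℝ) ^ q * F.d ω k⌋), F.Z ω)) fun ω ω' h => by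
      have h1 := floor_close (Prod.ext_iff.mp (Prod.ext_iff.mp h).1).2
      linarith
  have k17 := CH_chain h0 (fun ω => ⌊(2 : ℝ) ^ q * F.u ω k⌋)
    (fun ω => (fl J (pj k o (F.d ω)), ⌊(2 : ℝ) ^ q * F.d ω k⌋)) F.Z
  have k18 := CH_chain h0 (fun ω => fl J (pj k o (F.d ω))) (zk F k q) F.Z
  have k19 : CH F.p (fun ω => (⌊(2 : ℝ) ^ q * F.u ω k⌋,
      (fl J (pj k o (F.d ω)), ⌊(2 : ℝ) ^ q * F.d ω k⌋))) F.Z =
      CH F.p (fun ω => (fl J (pj k o (F.d ω)), zk F k q ω)) F.Z := by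
    refine CH_congr h0 ?_ ?_ (fun _ _ _ _ h => h) (fun _ _ _ _ h => h)
    · intro ω ω' _ _ h
      have h1 := Prod.ext_iff.mp (Prod.ext_iff.mp h).1
      have h2 := Prod.ext_iff.mp h1.2
      exact Prod.ext h2.1 (Prod.ext h1.1 h2.2)
    · intro ω ω' _ _ h
      have h1 := Prod.ext_iff.mp (Prod.ext_iff.mp h).1
      have h2 := Prod.ext_iff.mp h1.2
      exact Prod.ext h2.1 (Prod.ext h1.1 h2.2)
  have k20 : F.V J = CH F.p (F.D J) F.Z - CH F.p (F.X J) F.W := by
    unfold Fam.V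
    rw [sub_self, zero_mul, mul_zero, sub_zero]
  rw [k20]
  linarith

lemma star2_det (F : Fam (m + 1) J) (k : Fin (m + 1)) (o : Option (Fin m)) {b : ℝ}
    (hV : (prj F k o).V J ≤ b) :
    F.V J ≤ CH F.p (fun ω => ⌊(2 : ℝ) ^ J * F.d ω k⌋)
      (fun ω => (fl J (pj k o (F.d ω)), F.Z ω)) + b + (2 * m + 1) * Real.log 9 := by
  have h0 := F.isLaw.nonneg
  have k1 : CH F.p (fun ω => fl J (pj k o (F.d ω))) F.Z ≤
      CH F.p (fun ω => fl J (pj k o (F.x ω))) F.W + b := by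
    have h1 : (prj F k o).V J =
        CH F.p (fun ω => fl J (pj k o (F.d ω))) F.Z -
        CH F.p ((prj F k o).X J) F.W -
        m * (((J : ℝ) - J) * Real.log 2) := rfl
    rw [prj_X] at h1
    rw [h1] at hV
    rw [sub_self, zero_mul, mul_zero, sub_zero] at hV
    linarith
  have k2 := X_prj_le F k o F.W
  have k14 := CH_le_add h0 (F.D J) (fun ω => fl J (pj k o (F.d ω))) F.Z
  have k15 := D_prj_le F k o (fun ω => (fl J (pj k o (F.d ω)), F.Z ω)) (fun ω ω' h =>
      (Prod.ext_iff.mp h).1)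
  have k20 : F.V J = CH F.p (F.D J) F.Z - CH F.p (F.X J) F.W := by
    unfold Fam.V
    rw [sub_self, zero_mul, mul_zero, sub_zero]
  rw [k20]
  linarith

/-- **Families with a large violation are sticky.** Given `KP m`, a family in dimension `m + 1`
whose violation is at least `(1 - c) J log 2` is sticky. -/
theorem sticky_of_large (hK : KP m) {ε : ℝ} (hε : 0 < ε) : ∃ c > 0, ∃ θ > 0, ∃ J₀ : ℕ,
    ∀ J ≥ J₀, ∀ F : Fam (m + 1) J, F.Tm (θ * J) → (1 - c) * (J * Real.log 2) ≤ F.V J →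
    Sticky F.p F.u F.d F.Z ε J := by
  have hl2 : 0 < Real.log 2 := Real.log_pos (by norm_num)
  have hl9 : 0 < Real.log 9 := Real.log_pos (by norm_num)
  have hm : (0 : ℝ) ≤ m := Nat.cast_nonneg m
  -- `e = η J`
  obtain ⟨K, hK0⟩ : ∃ K : ℝ, K = ((m : ℝ) + 1) * (1 + m * ((m : ℝ) + 2)) := ⟨_, rfl⟩
  have hK1 : 1 ≤ K := by rw [hK0]; nlinarith [mul_nonneg hm (by linarith : (0 : ℝ) ≤ (m : ℝ) + 2)]
  obtain ⟨C, hC⟩ : ∃ C : ℝ, C = ((m : ℝ) + 1) * (m * ((3 * m + 3) * Real.log 9)) := ⟨_, rfl⟩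
  have hC0 : 0 ≤ C := by rw [hC]; positivity
  obtain ⟨η, hη⟩ : ∃ η : ℝ, η = ε / (2 * K) := ⟨_, rfl⟩
  have hη0 : 0 < η := by rw [hη]; positivity
  obtain ⟨θ₀, hθ₀, J₁, h1⟩ := hK (η / 4) (by positivity)
  obtain ⟨J₂, hJ₂⟩ := exists_nat_ge ((2 * m + 4) * Real.log 9 / (η / 4))
  obtain ⟨J₃, hJ₃⟩ := exists_nat_ge (C / (ε / 2))
  refine ⟨η / (4 * Real.log 2), by positivity, min θ₀ (η / 4), lt_min hθ₀ (by positivity),
    max J₁ (max J₂ J₃), ?_⟩
  intro J hJ F hT hV
  have g1 : J₁ ≤ J := le_trans (le_max_left _ _) hJ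
  have g2 : J₂ ≤ J := le_trans ((le_max_left _ _).trans (le_max_right _ _)) hJ
  have g3 : J₃ ≤ J := le_trans ((le_max_right _ _).trans (le_max_right _ _)) hJ
  have hJn : (0 : ℝ) ≤ J := Nat.cast_nonneg J
  have g4 : (2 * m + 4) * Real.log 9 ≤ η / 4 * J := by
    have : (J₂ : ℝ) ≤ J := by exact_mod_cast g2
    have h2 := hJ₂.trans this
    rw [div_le_iff₀ (by positivity)] at h2
    linarith
  have g5 : C ≤ ε / 2 * J := by
    have : (J₃ : ℝ) ≤ J := by exact_mod_cast g3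
    have h2 := hJ₃.trans this
    rw [div_le_iff₀ (by positivity)] at h2
    linarith
  have hT1 : F.Tm (θ₀ * J) := by
    unfold Fam.Tm at hT ⊢
    have := mul_le_mul_of_nonneg_right (min_le_left θ₀ (η / 4)) hJn
    linarith
  have hT2 : F.Tm (η / 4 * J) := by
    unfold Fam.Tm at hT ⊢
    have := mul_le_mul_of_nonneg_right (min_le_right θ₀ (η / 4)) hJn
    linarith
  have hc : (1 - η / (4 * Real.log 2)) * (J * Real.log 2) = J * Real.log 2 - η / 4 * J := by
    field_simp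
  rw [hc] at hV
  intro q hq
  have s1 : ∀ k o, CH F.p (fun ω => ⌊(2 : ℝ) ^ q * F.u ω k⌋)
      (fun ω => ((fl J (pj k o (F.d ω)), ⌊(2 : ℝ) ^ q * F.d ω k⌋), F.Z ω)) ≤ η * J := by
    intro k o
    have a1 := h1 J g1 ((prj F k o).cnd (zk F k q)) (tm_prj F k o q hT1)
    have a2 := star_det F k o hq hT2 a1
    linarith
  have s2 : ∀ k, (J : ℝ) * Real.log 2 - η * J ≤ CH F.p (fun ω => ⌊(2 : ℝ) ^ J * F.d ω k⌋)
      (fun ω => (fl J (pj k none (F.d ω)), F.Z ω)) := by
    intro k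
    have a1 := h1 J g1 (prj F k none) (tm_prj' F k none hT1)
    have a2 := star2_det F k none a1
    have a3 : (2 * (m : ℝ) + 1) * Real.log 9 ≤ (2 * m + 4) * Real.log 9 := by gcongr; norm_num
    have a4 : 0 ≤ η / 4 * J := by positivity
    linarith
  have s3 := near_sticky F.isLaw F.u F.d F.dir F.Z hq s1 s2
  refine s3.trans ?_
  have e1 : ((m : ℝ) + 1) * (η * J + m * (((m : ℝ) + 2) * (η * J) + (3 * m + 3) * Real.log 9)) =
      K * η * J + C := by
    rw [hK0, hC]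
    ring
  have e2 : K * η = ε / 2 := by
    rw [hη]
    field_simp
  rw [e1, e2]
  linarith

end Pool.Agent.H56.K5
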