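import Pool.Agent.H56.K5.Star
import Pool.Agent.H90.STK.All

/-!
# Random lines with an independent uniform time

The mean entropy of the positions of a random line is, up to a constant, the entropy of the
position at a uniform random time which is independent of the line.
-/

set_option autoImplicit false

namespace Pool.Agent.H56.K5

open Finset Real MeasureTheory
open Pool.Agent.H49.Ent Pool.Agent.H32.Dense Pool.STK Pool.KA

/-- The law on `Ω × Fin N` with independent uniform second coordinate. -/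
noncomputable def unl {Ω : Type} (N : ℕ) (p : Ω → ℝ) (w : Ω × Fin N) : ℝ := p w.1 * (N : ℝ)⁻¹

variable {Ω : Type} [Fintype Ω] {p : Ω → ℝ}

lemma unl_law {N : ℕ} (hN : 0 < N) (hp : IsLaw p) : IsLaw (unl N p) := by
  have hN' : (N : ℝ) ≠ 0 := by exact_mod_cast hN.ne'
  refine ⟨fun w => mul_nonneg (hp.nonneg _) (by positivity), ?_⟩
  unfold unl
  rw [Fintype.sum_prod_type]
  simp only [Finset.sum_const, Finset.card_univ, Fintype.card_fin, nsmul_eq_mul]
  have : ∀ x : Ω, (N : ℝ) * (p x * (N : ℝ)⁻¹) = p x := fun x => by field_simp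
  simp_rw [this]
  exact hp.sum_one

lemma law_unl {S : Type} (N : ℕ) (G : Fin N → Ω → S) (g : S) (s : Fin N) :
    law (unl N p) (fun w => (G w.2 w.1, w.2)) (g, s) = (N : ℝ)⁻¹ * law p (G s) g := by
  classical
  unfold law unl
  rw [Fintype.sum_prod_type, Finset.mul_sum]
  refine Finset.sum_congr rfl fun ω _ => ?_
  rw [Finset.sum_eq_single s]
  · by_cases h : G s ω = g
    · simp [h, mul_comm]
    · simp [h]
  · intro b _ hb
    simp [hb]
  · intro h
    exact absurd (Finset.mem_univ _) h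

lemma H_unl {S : Type} {N : ℕ} (hN : 0 < N) (hp : IsLaw p) (G : Fin N → Ω → S) :
    H (unl N p) (fun w => (G w.2 w.1, w.2)) =
      Real.log N + (N : ℝ)⁻¹ * ∑ s, H p (G s) := by
  have hN' : (N : ℝ) ≠ 0 := by exact_mod_cast hN.ne'
  unfold H
  simp_rw [law_unl]
  rw [Fintype.sum_prod_type_right, Finset.sum_neg_distrib]
  have h1 : ∀ s : Fin N, ∑ ω, unl N p (ω, s) * Real.log ((N : ℝ)⁻¹ * law p (G s) (G s ω)) =
      (N : ℝ)⁻¹ * (-Real.log N + ∑ ω, p ω * Real.log (law p (G s) (G s ω))) := by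
    intro s
    have h2 : ∀ ω, unl N p (ω, s) * Real.log ((N : ℝ)⁻¹ * law p (G s) (G s ω)) =
        (N : ℝ)⁻¹ * (p ω * (-Real.log N) + p ω * Real.log (law p (G s) (G s ω))) := by
      intro ω
      unfold unl
      rcases (hp.nonneg ω).eq_or_lt with h0 | h0
      · rw [← h0]
        ring
      · have hl := law_pos hp.nonneg (G s) h0
        rw [Real.log_mul (by positivity) hl.ne', Real.log_inv]
        ring
    simp_rw [h2]
    rw [← Finset.mul_sum, Finset.sum_add_distrib, ← Finset.sum_mul, hp.sum_one, one_mul]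
  simp_rw [h1]
  rw [← Finset.mul_sum, Finset.sum_add_distrib, Finset.sum_const, Finset.card_univ,
    Fintype.card_fin, nsmul_eq_mul]
  field_simp
  ring

/-- Conditioning on the uniform coordinate. -/
lemma CH_unl {S U : Type} {N : ℕ} (hN : 0 < N) (hp : IsLaw p) (Y : Fin N → Ω → S) (Z : Ω → U) :
    CH (unl N p) (fun w => Y w.2 w.1) (fun w => ((w.2 : ℕ), Z w.1)) =
      (N : ℝ)⁻¹ * ∑ s, CH p (Y s) Z := by
  have h0 := (unl_law hN hp).nonneg
  have e1 : CH (unl N p) (fun w => Y w.2 w.1) (fun w => ((w.2 : ℕ), Z w.1)) =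
      H (unl N p) (fun w => ((Y w.2 w.1, Z w.1), w.2)) - H (unl N p) (fun w => (Z w.1, w.2)) := by
    unfold CH
    congr 1
    · refine H_congr h0 ?_ ?_ <;>
      · intro w w' _ _ h
        simp only [Prod.mk.injEq, Fin.ext_iff] at h ⊢
        tauto
    · refine H_congr h0 ?_ ?_ <;>
      · intro w w' _ _ h
        simp only [Prod.mk.injEq, Fin.ext_iff] at h ⊢
        tauto
  rw [e1, H_unl hN hp (fun s ω => (Y s ω, Z ω)), H_unl hN hp (fun _ ω => Z ω)]
  unfold CH
  rw [Finset.sum_sub_distrib, mul_sub]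
  ring

/-- The uniform coordinate is independent. -/
lemma CH_unl_time {U : Type} {N : ℕ} (hN : 0 < N) (hp : IsLaw p) (Z : Ω → U) :
    CH (unl N p) (fun w => (w.2 : ℕ)) (fun w => Z w.1) = Real.log N := by
  have h0 := (unl_law hN hp).nonneg
  have e1 : H (unl N p) (fun w => ((w.2 : ℕ), Z w.1)) = H (unl N p) (fun w => (Z w.1, w.2)) := by
    refine H_congr h0 ?_ ?_ <;>
    · intro w w' _ _ h
      simp only [Prod.mk.injEq, Fin.ext_iff] at h ⊢
      tauto
  unfold CH
  rw [e1, H_unl hN hp (fun _ ω => Z ω)]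
  have e2 : H (unl N p) (fun w => Z w.1) = H p Z := by
    refine H_eq_of_marginal (p := p) (fun w : Ω × Fin N => w.1) (fun ω => ?_) Z
    classical
    rw [Fintype.sum_prod_type]
    rw [Finset.sum_eq_single ω]
    · have hN' : (N : ℝ) ≠ 0 := by exact_mod_cast hN.ne'
      simp only [if_true, unl, Finset.sum_const, Finset.card_univ, Fintype.card_fin, nsmul_eq_mul]
      field_simp
    · intro b _ hb
      simp [hb]
    · intro h
      exact absurd (Finset.mem_univ _) h
  rw [e2]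
  have hN' : (N : ℝ) ≠ 0 := by exact_mod_cast hN.ne'
  simp only [Finset.sum_const, Finset.card_univ, Fintype.card_fin, nsmul_eq_mul]
  field_simp
  ring

/-- The variables on `Ω` keep their entropies. -/
lemma CH_unl_fst {S U : Type} {N : ℕ} (hN : 0 < N) (Y : Ω → S) (Z : Ω → U) :
    CH (unl N p) (fun w => Y w.1) (fun w => Z w.1) = CH p Y Z := by
  have hm : ∀ ω, (open Classical in ∑ w : Ω × Fin N, if w.1 = ω then unl N p w else 0) = p ω := by
    intro ω
    classical
    rw [Fintype.sum_prod_type]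
    rw [Finset.sum_eq_single ω]
    · have hN' : (N : ℝ) ≠ 0 := by exact_mod_cast hN.ne'
      simp only [if_true, unl, Finset.sum_const, Finset.card_univ, Fintype.card_fin, nsmul_eq_mul]
      field_simp
    · intro b _ hb
      simp [hb]
    · intro h
      exact absurd (Finset.mem_univ _) h
  unfold CH
  rw [H_eq_of_marginal (p := p) (fun w : Ω × Fin N => w.1) hm (fun ω => (Y ω, Z ω)),
    H_eq_of_marginal (p := p) (fun w : Ω × Fin N => w.1) hm Z]

/-- The family with independent uniform time. -/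
noncomputable def stat {ζ : Type} {n : ℕ} (J : ℕ) (hp : IsLaw p) (u d : Ω → Fin n → ℝ) (Z : Ω → ζ)
    (hd : ∀ ω i, |d ω i| ≤ 1) : Fam n J where
  Ω := Ω × Fin (2 ^ J)
  ζ := ζ
  fin := inferInstance
  p := unl (2 ^ J) p
  u := fun w => u w.1
  d := fun w => d w.1
  T := fun w => (w.2 : ℕ)
  Z := fun w => Z w.1
  isLaw := unl_law (by positivity) hp
  dir := fun w => hd w.1
  tim := fun w => w.2.isLt

variable {ζ : Type} {n : ℕ}

lemma stat_tm (J : ℕ) (hp : IsLaw p) (u d : Ω → Fin n → ℝ) (Z : Ω → ζ)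
    (hd : ∀ ω i, |d ω i| ≤ 1) {a : ℝ} (ha : 0 ≤ a) : (stat J hp u d Z hd).Tm a := by
  have h := CH_unl_time (N := 2 ^ J) (by positivity) hp (fun ω => ((u ω, d ω), Z ω))
  have h1 : CH (stat J hp u d Z hd).p (stat J hp u d Z hd).T
      (fun ω => ((stat J hp u d Z hd).l ω, (stat J hp u d Z hd).Z ω)) = Real.log ((2 ^ J : ℕ) : ℝ) := h
  unfold Fam.Tm
  rw [h1]
  push_cast
  rw [Real.log_pow]
  linarith

lemma stat_D (J : ℕ) (hp : IsLaw p) (u d : Ω → Fin n → ℝ) (Z : Ω → ζ)
    (hd : ∀ ω i, |d ω i| ≤ 1) :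
    CH (stat J hp u d Z hd).p ((stat J hp u d Z hd).D J) (stat J hp u d Z hd).Z =
      CH p (Fl d J) Z :=
  CH_unl_fst (N := 2 ^ J) (by positivity) (Fl d J) Z

lemma stat_X (J : ℕ) (hp : IsLaw p) (u d : Ω → Fin n → ℝ) (Z : Ω → ζ)
    (hd : ∀ ω i, |d ω i| ≤ 1) :
    CH (stat J hp u d Z hd).p ((stat J hp u d Z hd).X J) (stat J hp u d Z hd).W =
      ((2 : ℝ) ^ J)⁻¹ * ∑ w ∈ Finset.range (2 ^ J), CH p (Xp u d ((w : ℝ) / 2 ^ J) J) Z := by
  have h := CH_unl (N := 2 ^ J) (by positivity) hp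
    (fun s => Xp u d (((s : ℕ) : ℝ) / 2 ^ J) J) Z
  have h1 : CH (stat J hp u d Z hd).p ((stat J hp u d Z hd).X J) (stat J hp u d Z hd).W =
      CH (unl (2 ^ J) p) (fun w => Xp u d (((w.2 : ℕ) : ℝ) / 2 ^ J) J w.1)
        (fun w => ((w.2 : ℕ), Z w.1)) := rfl
  rw [h1, h, Finset.sum_range]
  push_cast
  rfl

end Pool.Agent.H56.K5
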