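import Pool.Agent.H56.K5.Gap

/-!
# The union of tubes in one dimension more

Given `KP m`, the union of `N` tubes of radius `δ` in the Euclidean space of dimension `m + 2`, with
`δ`-separated directions, has volume at least `C⁻¹ δ ^ (1 - c) N δ ^ (m + 1)`.
-/

set_option autoImplicit false

namespace Pool.Agent.H56.K5

open Finset Real MeasureTheory
open scoped RealInnerProductSpace
open Pool.Agent.H49.Ent Pool.Agent.H32.Dense Pool.STK Pool.KA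
open Pool.Agent.H53.Kak (E tube)
open Pool.Agent.H53.Dns (Mx psl slp)

/-- The good case. -/
lemma good_case {s c' N δ I : ℝ} {J : ℕ} (hs : 0 ≤ s) (hc : 0 < c')
    (hN : 0 < N) (hδ : 0 < δ) (hJ : c' * δ ≤ ((2 : ℝ) ^ J)⁻¹)
    (hI : Real.log N ≤ I + s * (J * Real.log 2)) :
    N * (c' ^ s * δ ^ s) ≤ Real.exp I := by
  rw [← Real.log_le_iff_le_exp (by positivity), Real.log_mul hN.ne' (by positivity),
    Real.log_mul (by positivity) (by positivity), Real.log_rpow hc, Real.log_rpow hδ]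
  have l2 : Real.log c' + Real.log δ ≤ -(J * Real.log 2) := by
    have := Real.log_le_log (by positivity) hJ
    rw [Real.log_mul hc.ne' hδ.ne', Real.log_inv, Real.log_pow] at this
    linarith
  have := mul_le_mul_of_nonneg_left l2 hs
  linarith

/-- **Tubes with separated directions in one dimension more.** -/
theorem tubes {d : ℕ} (hG : ∃ c : ℝ, 0 < c ∧ c ≤ 1 ∧ ∃ J₀ : ℕ, ∀ J ≥ J₀,
    ∀ (Ω ζ : Type) [Fintype Ω] (p : Ω → ℝ) (u v : Ω → Fin d → ℝ) (Z : Ω → ζ), IsLaw p →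
      (∀ ω i, |v ω i| ≤ 1) →
      CH p (Fl v J) Z ≤ Xav p u v Z J + (1 - c) * (J * Real.log 2)) :
    ∃ c C : ℝ, 0 < c ∧ c ≤ 1 ∧ 0 < C ∧ ∀ δ : ℝ, 0 < δ → δ < 1 →
      ∀ (N : ℕ) (a e : Fin N → E d), (∀ i, ‖e i‖ = 1) →
      (∀ i i', i ≠ i' → δ ≤ ‖e i - e i'‖) →
      ENNReal.ofReal (C⁻¹ * (δ ^ (1 - c) * (N * δ ^ d))) ≤ volume (⋃ i, tube δ (a i) (e i)) := by
  obtain ⟨c₁, hc₁, c₂, hc₂, hV⟩ := tvl_thm d
  obtain ⟨c₃, hc₃, hS⟩ := tds_thm d
  obtain ⟨c₆, hc₆, hO⟩ := tov_thm d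
  obtain ⟨C₇, hC₇, hD⟩ := tcd_thm d
  obtain ⟨c, hc0, hcle, J₀, hG⟩ := hG
  have hs0 : 0 ≤ 1 - c := by linarith
  obtain ⟨cm, hcmdef⟩ : ∃ cm, cm = min (min c₂ c₃) 1 := ⟨_, rfl⟩
  have hcm0 : 0 < cm := by rw [hcmdef]; exact lt_min (lt_min hc₂ hc₃) one_pos
  have hcm1 : cm ≤ 1 := by rw [hcmdef]; exact min_le_right _ _
  have hcm2 : cm ≤ c₂ := by rw [hcmdef]; exact (min_le_left _ _).trans (min_le_left _ _)
  have hcm3 : cm ≤ c₃ := by rw [hcmdef]; exact (min_le_left _ _).trans (min_le_right _ _)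
  obtain ⟨c', hc'def⟩ : ∃ c', c' = cm / 2 := ⟨_, rfl⟩
  have hc'0 : 0 < c' := by rw [hc'def]; positivity
  have hlog2 : 0 < Real.log 2 := Real.log_pos (by norm_num)
  obtain ⟨D, hDdef⟩ : ∃ D, D = min (c₁ * c' ^ d * c' ^ (1 - c))
    (c₁ * c' ^ d / (C₇ * ((2 : ℝ) ^ J₀) ^ d)) := ⟨_, rfl⟩
  have hD0 : 0 < D := by
    rw [hDdef]
    exact lt_min (by positivity) (by positivity)
  have hD1 : D ≤ c₁ * c' ^ d * c' ^ (1 - c) := by rw [hDdef]; exact min_le_left _ _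
  have hD2 : D ≤ c₁ * c' ^ d / (C₇ * ((2 : ℝ) ^ J₀) ^ d) := by
    rw [hDdef]; exact min_le_right _ _
  refine ⟨c, (c₆ * D)⁻¹, hc0, hcle, by positivity, ?_⟩
  intro δ hδ hδ1 N a e hu hsep
  have hmain := hO δ (D * δ ^ (1 - c) * δ ^ d) hδ hδ1 (by positivity) (Fin N) a e hu ?_
  · refine le_trans (le_of_eq ?_) hmain
    congr 1
    rw [inv_inv, Fintype.card_fin]
    ring
  intro κ _ f k g q hf hcell
  rcases isEmpty_or_nonempty κ with hκ | hκ
  · simp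
  obtain ⟨J, hJ1, hJ2⟩ := Pool.STK.TUB.exists_J hcm0 hcm1 hδ hδ1
  rw [← hc'def] at hJ2
  have hN0 : (0 : ℝ) < Fintype.card κ := by exact_mod_cast Fintype.card_pos
  have hsepf : ∀ i i', i ≠ i' → δ ≤ ‖e (f i) - e (f i')‖ := fun i i' h =>
    hsep _ _ (fun h' => h (hf h'))
  have hNC : (Fintype.card κ : ℝ) ≤ C₇ * (δ ^ d)⁻¹ :=
    hD δ hδ hδ1 κ (fun i => e (f i)) (fun i => hu _) hsepf
  obtain ⟨p, hpdef⟩ : ∃ p : κ → ℝ, p = fun _ => (Fintype.card κ : ℝ)⁻¹ := ⟨_, rfl⟩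
  have hp : IsLaw p := by
    rw [hpdef]
    refine ⟨fun _ => by positivity, ?_⟩
    rw [Finset.sum_const, Finset.card_univ, nsmul_eq_mul, mul_inv_cancel₀ hN0.ne']
  have hvol := hV δ J hδ hδ1 (hJ1.trans (by gcongr)) κ (fun i => a (f i)) (fun i => e (f i)) k g q
    hcell p hp
  refine le_trans (ENNReal.ofReal_le_ofReal ?_) hvol
  obtain ⟨I, hIdef⟩ : ∃ I, I = ∫ s in (0 : ℝ)..1, H p (Xp (uT k g (fun i => a (f i))
    (fun i => e (f i))) (dT k (fun i => e (f i))) s J) := ⟨_, rfl⟩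
  rw [← hIdef]
  have hI0 : 0 ≤ I := by
    rw [hIdef]
    exact intervalIntegral.integral_nonneg (by norm_num)
      (fun s _ => H_nonneg hp.nonneg hp.sum_one _)
  have hJd : c' ^ d * δ ^ d ≤ (((2 : ℝ) ^ J)⁻¹) ^ d := by
    rw [← mul_pow]
    exact pow_le_pow_left₀ (by positivity) hJ2 d
  have hδd : δ ^ d * (δ ^ d)⁻¹ = 1 := mul_inv_cancel₀ (by positivity)
  have hδs : δ ^ (1 - c) ≤ 1 := Real.rpow_le_one hδ.le hδ1.le hs0
  by_cases hgood : J₀ ≤ J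
  · have h2 := hG J hgood κ Unit p (uT k g (fun i => a (f i)) (fun i => e (f i)))
      (dT k (fun i => e (f i))) (fun _ => ()) hp (by
        intro i l
        have h3 := (hcell.mx i).slp (hcell.unit i) l
        have h4 : hm d ≤ 1 := by
          unfold hm
          rw [div_le_one (by positivity)]
          have : (0 : ℝ) ≤ d := by positivity
          linarith
        have h5 : 0 ≤ hm d := by unfold hm; positivity
        unfold dT
        rw [abs_mul, abs_of_nonneg h5]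
        exact mul_le_one₀ h4 (abs_nonneg _) h3)
    have h3 : Xav p (uT k g (fun i => a (f i)) (fun i => e (f i)))
        (dT k (fun i => e (f i))) (fun _ => ()) J = I := by
      rw [hIdef]
      unfold Xav
      refine intervalIntegral.integral_congr fun s _ => ?_
      exact Pool.STK.TUB.CH_unit hp _
    rw [Pool.STK.TUB.CH_unit hp, h3] at h2
    have h4 : H p (Fl (dT k (fun i => e (f i))) J) = Real.log (Fintype.card κ) := by
      rw [hpdef]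
      exact H_uniform (hS δ J hδ hδ1 (hJ1.trans (by gcongr)) κ (fun i => a (f i))
        (fun i => e (f i)) k g q hcell hsepf)
    rw [h4] at h2
    have h5 := good_case hs0 hc'0 hN0 hδ hJ2 h2
    calc D * δ ^ (1 - c) * δ ^ d * (Fintype.card κ : ℝ)
        ≤ (c₁ * c' ^ d * c' ^ (1 - c)) * δ ^ (1 - c) * δ ^ d * (Fintype.card κ : ℝ) := by
          gcongr
      _ = c₁ * (c' ^ d * δ ^ d) * ((Fintype.card κ : ℝ) * (c' ^ (1 - c) * δ ^ (1 - c))) := by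
          ring
      _ ≤ c₁ * (((2 : ℝ) ^ J)⁻¹) ^ d * Real.exp I := by
          gcongr
  · push Not at hgood
    have h3 : 1 ≤ ((2 : ℝ) ^ J₀) * δ := by
      have h4 : ((2 : ℝ) ^ J₀)⁻¹ ≤ δ := by
        have h5 : ((2 : ℝ) ^ J)⁻¹ ≤ δ := hJ1.trans (by nlinarith)
        refine le_trans ?_ h5
        gcongr
        norm_num
      rwa [inv_le_iff_one_le_mul₀' (by positivity)] at h4
    have h5 : 1 ≤ ((2 : ℝ) ^ J₀) ^ d * δ ^ d := by
      rw [← mul_pow]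
      exact one_le_pow₀ h3
    have h6 : D * (C₇ * ((2 : ℝ) ^ J₀) ^ d) ≤ c₁ * c' ^ d := by
      rwa [le_div_iff₀ (by positivity)] at hD2
    calc D * δ ^ (1 - c) * δ ^ d * (Fintype.card κ : ℝ)
        ≤ D * 1 * δ ^ d * (C₇ * (δ ^ d)⁻¹) := by
          gcongr
      _ = D * C₇ * (δ ^ d * (δ ^ d)⁻¹) := by ring
      _ = D * C₇ * 1 := by rw [hδd]
      _ ≤ D * C₇ * (((2 : ℝ) ^ J₀) ^ d * δ ^ d) := by gcongr
      _ = D * (C₇ * ((2 : ℝ) ^ J₀) ^ d) * δ ^ d := by ring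
      _ ≤ c₁ * c' ^ d * δ ^ d := by gcongr
      _ = c₁ * (c' ^ d * δ ^ d) * 1 := by ring
      _ ≤ c₁ * (((2 : ℝ) ^ J)⁻¹) ^ d * Real.exp I := by
          have := Real.one_le_exp hI0
          gcongr

/-- Given `KP m`, tubes in the Euclidean space of dimension `m + 2`. -/
theorem tubes_of_KP {m : ℕ} (hK : KP m) :
    ∃ c C : ℝ, 0 < c ∧ c ≤ 1 ∧ 0 < C ∧ ∀ δ : ℝ, 0 < δ → δ < 1 →
      ∀ (N : ℕ) (a e : Fin N → E (m + 1)), (∀ i, ‖e i‖ = 1) →
      (∀ i i', i ≠ i' → δ ≤ ‖e i - e i'‖) →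
      ENNReal.ofReal (C⁻¹ * (δ ^ (1 - c) * (N * δ ^ (m + 1)))) ≤
        volume (⋃ i, tube δ (a i) (e i)) :=
  tubes (gap hK)

end Pool.Agent.H56.K5
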