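import Pool.Agent.H56.K5.Star
import Pool.Agent.H9.KRN.Top

/-!
# Kakeya sets in one dimension more, from the sticky theorem with times dependent on the line

`KST m` is the sticky theorem for families in dimension `m` whose times are uniform up to small
deficits. Together with `KP m` it bounds the violation in dimension `m + 1` by `(1 - c) J log 2`.
-/

set_option autoImplicit false

namespace Pool.Agent.H56.K5

open Finset Real MeasureTheory
open Pool.Agent.H49.Ent Pool.Agent.H32.Dense Pool.STK Pool.KA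
open Pool.Agent.H53.Kak (E tube)

/-- The sticky theorem with times dependent on the line. -/
def KST (m : ℕ) : Prop :=
  ∀ a > 1, ∀ R > 0, ∃ ε > 0, ∃ θ > 0, ∃ J₀ : ℕ, ∀ J ≥ J₀, ∀ F : Fam m J, F.Tm (θ * J) →
    Sticky F.p F.u F.d F.Z ε J → CH F.p (F.D J) F.Z ≤ a * CH F.p (F.X J) F.W + R * J

/-- **The violation is at most `(1 - c) J log 2`.** -/
theorem vb_of {m : ℕ} (hK : KP m) (hE : KST (m + 1)) :
    ∃ c > 0, c ≤ 1 ∧ VB (m + 1) ((1 - c) * Real.log 2) := by
  have hl2 : 0 < Real.log 2 := Real.log_pos (by norm_num)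
  have hl9 : 0 < Real.log 9 := Real.log_pos (by norm_num)
  have hm : (0 : ℝ) ≤ m := Nat.cast_nonneg m
  obtain ⟨a, ha⟩ : ∃ a : ℝ, a = 1 + 1 / (8 * ((m : ℝ) + 1)) := ⟨_, rfl⟩
  have ha1 : 1 < a := by
    rw [ha]
    have : 0 < 1 / (8 * ((m : ℝ) + 1)) := by positivity
    linarith
  obtain ⟨ε₀, hε₀, θ₁, hθ₁, J₁, hE⟩ := hE a ha1 (Real.log 2 / 8) (by positivity)
  obtain ⟨c₀, hc₀, θ₂, hθ₂, J₂, hS⟩ := sticky_of_large hK hε₀
  obtain ⟨J₄, hJ₄⟩ := exists_nat_ge (Real.log 9 / Real.log 2)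
  obtain ⟨c, hc⟩ : ∃ c : ℝ, c = min c₀ (1 / 4) := ⟨_, rfl⟩
  have hc1 : c ≤ c₀ := by rw [hc]; exact min_le_left _ _
  have hc2 : c ≤ 1 / 4 := by rw [hc]; exact min_le_right _ _
  have hc0 : 0 < c := by rw [hc]; positivity
  refine ⟨c, hc0, hc2.trans (by norm_num), ?_⟩
  intro η hη
  refine ⟨min θ₁ θ₂, lt_min hθ₁ hθ₂, max (max J₁ J₂) (J₄ + 1), ?_⟩
  intro J hJ F hT
  have g1 : J₁ ≤ J := le_trans ((le_max_left _ _).trans (le_max_left _ _)) hJ
  have g2 : J₂ ≤ J := le_trans ((le_max_right _ _).trans (le_max_left _ _)) hJ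
  have g4 : (J₄ : ℝ) + 1 ≤ J := by exact_mod_cast le_trans (le_max_right _ _) hJ
  have hJn : (0 : ℝ) ≤ J := Nat.cast_nonneg J
  have k4 : Real.log 9 < J * Real.log 2 := by
    have h1 : Real.log 9 / Real.log 2 < J := by linarith
    rwa [div_lt_iff₀ hl2] at h1
  have hT1 : F.Tm (θ₁ * J) := by
    unfold Fam.Tm at hT ⊢
    have := mul_le_mul_of_nonneg_right (min_le_left θ₁ θ₂) hJn
    linarith
  have hT2 : F.Tm (θ₂ * J) := by
    unfold Fam.Tm at hT ⊢
    have := mul_le_mul_of_nonneg_right (min_le_right θ₁ θ₂) hJn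
    linarith
  obtain ⟨L, hL⟩ : ∃ L : ℝ, L = J * Real.log 2 := ⟨_, rfl⟩
  have hL0 : 0 < L := by rw [hL]; linarith
  rw [← hL] at k4
  by_contra hcon
  push Not at hcon
  have hcon1 : (1 - c) * L < F.V J := by
    have h1 : ((1 - c) * Real.log 2 + η) * J = (1 - c) * L + η * J := by rw [hL]; ring
    rw [h1] at hcon
    have : 0 ≤ η * J := by positivity
    linarith
  have b5 : (1 - c₀) * (J * Real.log 2) ≤ F.V J := by
    rw [← hL]
    have h1 : c * L ≤ c₀ * L := mul_le_mul_of_nonneg_right hc1 hL0.le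
    linarith
  have b8 := hE J g1 F hT1 (hS J g2 F hT2 b5)
  have b9 := capv F.isLaw (Nat.zero_le J) F.d F.Z fun ω ω' i _ => by
    have a1 := F.dir ω i
    have a2 := F.dir ω' i
    rw [abs_le] at a1 a2 ⊢
    norm_num
    constructor <;> linarith [a1.1, a1.2, a2.1, a2.2]
  have b9' : CH F.p (F.D J) F.Z ≤ ((m : ℝ) + 1) * (L + Real.log 9) := by
    refine b9.trans (le_of_eq ?_)
    push_cast
    rw [sub_zero, hL]
  have b4 : F.V J = CH F.p (F.D J) F.Z - CH F.p (F.X J) F.W := by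
    unfold Fam.V
    rw [sub_self, zero_mul, mul_zero, sub_zero]
  obtain ⟨h, hh⟩ : ∃ h : ℝ, h = CH F.p (F.D J) F.Z := ⟨_, rfl⟩
  obtain ⟨x, hx⟩ : ∃ x : ℝ, x = CH F.p (F.X J) F.W := ⟨_, rfl⟩
  rw [← hh, ← hx] at b4 b8
  rw [← hh] at b9'
  have c1 : Real.log 2 / 8 * J = L / 8 := by rw [hL]; ring
  rw [c1] at b8
  have c2 : x < h - 3 / 4 * L := by
    have : c * L ≤ 1 / 4 * L := mul_le_mul_of_nonneg_right hc2 hL0.le
    linarith
  have c3 : a * x ≤ a * (h - 3 / 4 * L) := mul_le_mul_of_nonneg_left c2.le (by linarith)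
  have c4 : (a - 1) * h ≤ (L + Real.log 9) / 8 := by
    have : a - 1 = 1 / (8 * ((m : ℝ) + 1)) := by rw [ha]; ring
    rw [this]
    have h5 : 1 / (8 * ((m : ℝ) + 1)) * h ≤
        1 / (8 * ((m : ℝ) + 1)) * (((m : ℝ) + 1) * (L + Real.log 9)) :=
      mul_le_mul_of_nonneg_left b9' (by positivity)
    refine h5.trans (le_of_eq ?_)
    field_simp
  have c5 : 3 / 4 * L ≤ a * (3 / 4 * L) := by
    have : (1 : ℝ) * (3 / 4 * L) ≤ a * (3 / 4 * L) :=
      mul_le_mul_of_nonneg_right ha1.le (by positivity)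
    linarith
  linarith

/-- Conditioning on a constant. -/
lemma CH_unit {Ω S : Type} [Fintype Ω] {p : Ω → ℝ} (hp : IsLaw p) (X : Ω → S) :
    CH p X (fun _ => ()) = H p X := by
  unfold CH
  rw [H_const hp.sum_one]
  have : H p (fun ω => (X ω, ())) = H p X :=
    H_comp_injective hp.nonneg X (f := fun s => (s, ())) (fun a b h => (Prod.ext_iff.mp h).1)
  rw [this, sub_zero]

/-- A family without side information. -/
noncomputable def noZ {m J : ℕ} (F : Fam m J) : Fam m J where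
  Ω := F.Ω
  ζ := Unit
  fin := F.fin
  p := F.p
  u := F.u
  d := F.d
  T := F.T
  Z := fun _ => ()
  isLaw := F.isLaw
  dir := F.dir
  tim := F.tim

/-- From the bound for the violation to the entropy bound for nearly uniform directions. -/
theorem ef_of_vb {m : ℕ} {r : ℝ} (h : VB m (r * Real.log 2)) : Pool.KRN.EF m (m - r) := by
  have hl2 : 0 < Real.log 2 := Real.log_pos (by norm_num)
  intro ε hε
  obtain ⟨θ, hθ, J₀, h1⟩ := h (ε / 2 * Real.log 2) (by positivity)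
  refine ⟨min θ (ε / 2), lt_min hθ (by positivity), J₀, ?_⟩
  intro J hJ F _ hT hD
  have hJn : (0 : ℝ) ≤ J := Nat.cast_nonneg J
  have hT1 : (noZ F).Tm (θ * J) := by
    refine le_trans ?_ (CH_mono_cond F.isLaw.nonneg (X := F.T)
      (W' := fun ω => (F.l ω, F.Z ω)) (W := fun ω => (F.l ω, ())) fun ω ω' _ _ hh => ?_)
    · unfold Fam.Tm at hT
      have := mul_le_mul_of_nonneg_right (min_le_left θ (ε / 2)) hJn
      linarith
    · have h2 := Prod.ext_iff.mp hh
      exact Prod.ext h2.1 rfl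
  have h2 := h1 J hJ (noZ F) hT1
  have h3 : (noZ F).V J = H F.p (F.D J) - CH F.p (F.X J) F.T := by
    have e1 : (noZ F).V J = CH F.p (F.D J) (fun _ => ()) -
        CH F.p (F.X J) (fun ω => (F.T ω, ())) - m * (((J : ℝ) - J) * Real.log 2) := rfl
    have e2 : CH F.p (F.D J) (fun _ => ()) = H F.p (F.D J) := CH_unit F.isLaw _
    have e3 : CH F.p (F.X J) (fun ω => (F.T ω, ())) = CH F.p (F.X J) F.T := by
      refine CH_congr F.isLaw.nonneg ?_ ?_ ?_ ?_
      · intro ω ω' _ _ hh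
        exact (Prod.ext_iff.mp hh).1
      · intro ω ω' _ _ hh
        exact (Prod.ext_iff.mp hh).1
      · intro ω ω' _ _ hh
        exact (Prod.ext_iff.mp hh).1
      · intro ω ω' _ _ hh
        exact Prod.ext hh rfl
    rw [e1, e2, e3, sub_self, zero_mul, mul_zero, sub_zero]
  rw [h3] at h2
  have h4 : min θ (ε / 2) * (J * Real.log 2) ≤ ε / 2 * (J * Real.log 2) :=
    mul_le_mul_of_nonneg_right (min_le_right _ _) (by positivity)
  have h5 : (r * Real.log 2 + ε / 2 * Real.log 2) * J = r * (J * Real.log 2) +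
      ε / 2 * (J * Real.log 2) := by ring
  rw [h5] at h2
  linarith

/-- Density bounds for tubes in one dimension more. -/
theorem dens_of {m : ℕ} (hm : m ≠ 0) (hK : KP m) (hE : KST (m + 1)) :
    ∃ c > 0, c ≤ 1 ∧ Pool.KRN.DensG (m + 1) (1 - c) := by
  obtain ⟨c, hc0, hc1, h⟩ := vb_of hK hE
  refine ⟨c, hc0, hc1, ?_⟩
  have hm1 : (1 : ℝ) ≤ m := by exact_mod_cast Nat.one_le_iff_ne_zero.mpr hm
  have h1 := Pool.KRN73.geoOne (m + 1) (((m + 1 : ℕ) : ℝ) - (1 - c)) (by omega)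
    (by push_cast; linarith) (by linarith) (ef_of_vb h)
  have e1 : ((m + 1 : ℕ) : ℝ) - (((m + 1 : ℕ) : ℝ) - (1 - c)) = 1 - c := by ring
  rwa [e1] at h1

/-- Hausdorff dimension of Kakeya sets in one dimension more. -/
theorem dim_of {m : ℕ} (hm : m ≠ 0) (hK : KP m) (hE : KST (m + 1)) :
    ∃ c : ℝ, 0 < c ∧ c ≤ 1 ∧ ∀ K : Set (E (m + 1)),
      (∀ e : E (m + 1), ‖e‖ = 1 → ∃ x : E (m + 1), ∀ t : ℝ, 0 ≤ t → t ≤ 1 → x + t • e ∈ K) →
      ENNReal.ofReal (m + 1 + c) ≤ dimH K := by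
  obtain ⟨c, hc0, hc1, h⟩ := dens_of hm hK hE
  refine ⟨c, hc0, hc1, fun K hKK => ?_⟩
  have h1 := Pool.KRN.t_geo2 (m + 1) (1 - c) (by linarith) (by push_cast; linarith) h K hKK
  refine le_trans (le_of_eq ?_) h1
  congr 1
  push_cast
  ring

end Pool.Agent.H56.K5
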